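import Pool.Agent.T6.H23.TB.NatRand

/-! Thin families of triples `a + b = c` of natural numbers with members in a random set. -/

set_option autoImplicit false

open MeasureTheory ProbabilityTheory Filter Topology

open scoped ENNReal NNReal

namespace Pool.Agent.T6.H23.TB.NN

variable {Ω : Type} [MeasurableSpace Ω] {μ : Measure Ω} {R : ℕ → Set Ω} {α : ℝ}

/-- the height of the triple `(a, b, a + b)` -/
def ht (p : ℕ × ℕ) : ℝ := ((p.1 + p.2 : ℕ) : ℝ)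

theorem one_le_ht {p : ℕ × ℕ} (h : 0 < p.1) : 1 ≤ ht p := by
  unfold ht
  exact_mod_cast (by omega : 1 ≤ p.1 + p.2)

theorem max_ge {p : ℕ × ℕ} : ht p / 2 ≤ ((max p.1 p.2 : ℕ) : ℝ) := by
  unfold ht
  have h1 : p.1 + p.2 ≤ 2 * max p.1 p.2 := by omega
  have h2 : ((p.1 + p.2 : ℕ) : ℝ) ≤ 2 * ((max p.1 p.2 : ℕ) : ℝ) := by exact_mod_cast h1
  linarith

theorem half_pow {x : ℝ} (hx : 0 < x) (β : ℝ) : (x / 2) ^ (-β) = 2 ^ β * x ^ (-β) := by
  rw [Real.div_rpow hx.le (by norm_num), Real.rpow_neg (by norm_num : (0 : ℝ) ≤ 2), div_inv_eq_mul]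
  ring

/-- only finitely many triples of a thin family have a large member in a random set -/
theorem one_member (h : IsRandomSet α μ R) (hα : 0 < α) (S : Set (ℕ × ℕ)) (C s : ℝ) (hs : s < α)
    (h0 : ∀ t ∈ S, 0 < t.1 ∧ 0 < t.2)
    (hS : ∀ X : ℝ, 1 ≤ X → {t | t ∈ S ∧ ht t ≤ X}.Finite ∧ ({t | t ∈ S ∧ ht t ≤ X}.ncard : ℝ) ≤ C * X ^ s) :
    ∀ᵐ ω ∂μ, {t | t ∈ S ∧ (ω ∈ R (max t.1 t.2) ∨ ω ∈ R (t.1 + t.2))}.Finite := by
  have h1 : ∀ t ∈ S, 1 ≤ ht t := fun t ht' => one_le_ht (h0 t ht').1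
  have hae := ae_finite (μ := μ) S ht C (2 ^ α + 1) s α hs hα.le h1 hS
    (fun t => R (max t.1 t.2) ∪ R (t.1 + t.2)) (fun t htS => by
      obtain ⟨e1, e2⟩ := h0 t htS
      have hH0 : 0 < ht t := lt_of_lt_of_le one_pos (h1 t htS)
      refine (measure_union_le _ _).trans ?_
      rw [h.density _ (by omega), h.density _ (by omega), ← ENNReal.ofReal_add (by positivity) (by positivity)]
      apply ENNReal.ofReal_le_ofReal
      have e3 : ((max t.1 t.2 : ℕ) : ℝ) ^ (-α) ≤ (ht t / 2) ^ (-α) :=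
        Real.rpow_le_rpow_of_nonpos (by positivity) max_ge (by linarith)
      rw [half_pow hH0] at e3
      have e4 : ((t.1 + t.2 : ℕ) : ℝ) ^ (-α) = ht t ^ (-α) := rfl
      rw [e4]
      linarith)
  exact hae

/-- only finitely many triples of a thin family have both large members in a random set -/
theorem two_members (h : IsRandomSet α μ R) (hα : 0 < α) (S : Set (ℕ × ℕ)) (C s : ℝ) (hs : s < 2 * α)
    (h0 : ∀ t ∈ S, 0 < t.1 ∧ 0 < t.2)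
    (hS : ∀ X : ℝ, 1 ≤ X → {t | t ∈ S ∧ ht t ≤ X}.Finite ∧ ({t | t ∈ S ∧ ht t ≤ X}.ncard : ℝ) ≤ C * X ^ s) :
    ∀ᵐ ω ∂μ, {t | t ∈ S ∧ ω ∈ R (max t.1 t.2) ∧ ω ∈ R (t.1 + t.2)}.Finite := by
  have h1 : ∀ t ∈ S, 1 ≤ ht t := fun t ht' => one_le_ht (h0 t ht').1
  have hae := ae_finite (μ := μ) S ht C (2 ^ α) s (2 * α) hs (by positivity) h1 hS
    (fun t => R (max t.1 t.2) ∩ R (t.1 + t.2)) (fun t htS => by
      obtain ⟨e1, e2⟩ := h0 t htS
      have hH0 : 0 < ht t := lt_of_lt_of_le one_pos (h1 t htS)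
      rw [h.pair (by omega) (by omega) (by omega)]
      apply ENNReal.ofReal_le_ofReal
      have e3 : ((max t.1 t.2 : ℕ) : ℝ) ^ (-α) ≤ (ht t / 2) ^ (-α) :=
        Real.rpow_le_rpow_of_nonpos (by positivity) max_ge (by linarith)
      rw [half_pow hH0] at e3
      have e4 : ((t.1 + t.2 : ℕ) : ℝ) ^ (-α) = ht t ^ (-α) := rfl
      rw [e4, show -(2 * α) = -α + -α by ring, Real.rpow_add hH0, ← mul_assoc]
      exact mul_le_mul_of_nonneg_right e3 (by positivity))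
  exact hae

/-- only finitely many triples of a thin family have all members in a random set and are not too unbalanced -/
theorem three_members (h : IsRandomSet α μ R) (hα : 0 < α) (S : Set (ℕ × ℕ)) (C s κ η : ℝ) (hη : 0 < η)
    (hκ : 0 ≤ κ) (hs : s < (2 + κ) * α)
    (h0 : ∀ t ∈ S, 0 < t.1 ∧ 0 < t.2 ∧ Nat.Coprime t.1 t.2)
    (hS : ∀ X : ℝ, 1 ≤ X → {t | t ∈ S ∧ ht t ≤ X}.Finite ∧ ({t | t ∈ S ∧ ht t ≤ X}.ncard : ℝ) ≤ C * X ^ s) :
    ∀ᵐ ω ∂μ, {t | t ∈ S ∧ ω ∈ R t.1 ∧ ω ∈ R t.2 ∧ ω ∈ R (t.1 + t.2) ∧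
      η * ht t ^ κ ≤ ((min t.1 t.2 : ℕ) : ℝ)}.Finite := by
  set S' : Set (ℕ × ℕ) := {t | t ∈ S ∧ t.1 ≠ t.2 ∧ η * ht t ^ κ ≤ ((min t.1 t.2 : ℕ) : ℝ)} with hS'
  have h1 : ∀ t ∈ S', 1 ≤ ht t := fun t ht' => one_le_ht (h0 t ht'.1).1
  have hC : ∀ X : ℝ, 1 ≤ X → {t | t ∈ S' ∧ ht t ≤ X}.Finite ∧ ({t | t ∈ S' ∧ ht t ≤ X}.ncard : ℝ) ≤ C * X ^ s := by
    intro X hX
    obtain ⟨h2, h3⟩ := hS X hX
    have hsub : {t | t ∈ S' ∧ ht t ≤ X} ⊆ {t | t ∈ S ∧ ht t ≤ X} := fun t ht' => ⟨ht'.1.1, ht'.2⟩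
    refine ⟨h2.subset hsub, le_trans ?_ h3⟩
    exact_mod_cast Set.ncard_le_ncard hsub h2
  have hae := ae_finite (μ := μ) S' ht C (2 ^ α * η ^ (-α)) s ((2 + κ) * α) hs (by positivity) h1 hC
    (fun t => R t.1 ∩ R t.2 ∩ R (t.1 + t.2)) (fun t htS => by
      obtain ⟨ht1, ht2, ht3⟩ := htS
      obtain ⟨e1, e2, _⟩ := h0 t ht1
      have hH0 : 0 < ht t := lt_of_lt_of_le one_pos (one_le_ht e1)
      rw [h.triple ht2 (by omega) (by omega) (by omega) (by omega) (by omega)]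
      apply ENNReal.ofReal_le_ofReal
      have e3 : ((max t.1 t.2 : ℕ) : ℝ) ^ (-α) ≤ (ht t / 2) ^ (-α) :=
        Real.rpow_le_rpow_of_nonpos (by positivity) max_ge (by linarith)
      rw [half_pow hH0] at e3
      have e4 : ((t.1 + t.2 : ℕ) : ℝ) ^ (-α) = ht t ^ (-α) := rfl
      have e5 : ((min t.1 t.2 : ℕ) : ℝ) ^ (-α) ≤ (η * ht t ^ κ) ^ (-α) :=
        Real.rpow_le_rpow_of_nonpos (by positivity) ht3 (by linarith)
      have e6 : (t.1 : ℝ) ^ (-α) * ((t.2 : ℝ) ^ (-α) * ((t.1 + t.2 : ℕ) : ℝ) ^ (-α)) =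
          ((max t.1 t.2 : ℕ) : ℝ) ^ (-α) * ((min t.1 t.2 : ℕ) : ℝ) ^ (-α) * ht t ^ (-α) := by
        rw [e4]
        rcases le_total t.1 t.2 with h' | h'
        · rw [max_eq_right h', min_eq_left h']
          ring
        · rw [max_eq_left h', min_eq_right h']
          ring
      rw [e6]
      calc ((max t.1 t.2 : ℕ) : ℝ) ^ (-α) * ((min t.1 t.2 : ℕ) : ℝ) ^ (-α) * ht t ^ (-α)
          ≤ (2 ^ α * ht t ^ (-α)) * (η * ht t ^ κ) ^ (-α) * ht t ^ (-α) := by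
            refine mul_le_mul_of_nonneg_right (mul_le_mul e3 e5 (by positivity) (by positivity)) (by positivity)
        _ = 2 ^ α * η ^ (-α) * ht t ^ (-((2 + κ) * α)) := by
            rw [Real.mul_rpow hη.le (by positivity), ← Real.rpow_mul hH0.le,
              show -((2 + κ) * α) = -α + κ * -α + -α by ring, Real.rpow_add hH0, Real.rpow_add hH0]
            ring)
  filter_upwards [hae] with ω hω
  refine (hω.union (hS 2 (by norm_num)).1).subset ?_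
  rintro t ⟨ht', hR1, hR2, hR3, hprod⟩
  by_cases heq : t.1 = t.2
  · right
    obtain ⟨e1, e2, e5⟩ := h0 t ht'
    refine ⟨ht', ?_⟩
    rw [← heq, Nat.coprime_self] at e5
    unfold ht
    rw [← heq, e5]
    norm_num
  · left
    exact ⟨⟨ht', heq, hprod⟩, ⟨hR1, hR2⟩, hR3⟩

end Pool.Agent.T6.H23.TB.NN
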