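import Pool.Agent.T6.H23.TB.NatRand

/-! Thin families of objects with members among the natural numbers, and random sets. -/

set_option autoImplicit false

open MeasureTheory ProbabilityTheory Filter Topology

open scoped ENNReal NNReal

namespace Pool.Agent.T6.H23.TB.NN

variable {Ω : Type} [MeasurableSpace Ω] {μ : Measure Ω} {R : ℕ → Set Ω} {α : ℝ}

theorem half_pow' {x : ℝ} (hx : 0 < x) (β : ℝ) : (x / 2) ^ (-β) = 2 ^ β * x ^ (-β) := by
  rw [Real.div_rpow hx.le (by norm_num), Real.rpow_neg (by norm_num : (0 : ℝ) ≤ 2), div_inv_eq_mul]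
  ring

/-- only finitely many objects of a thin family have a large member in a random set -/
theorem gen_one (h : IsRandomSet α μ R) (hα : 0 < α) {T : Type} [Countable T] (S : Set T) (ht : T → ℝ)
    (mem : T → Finset ℕ) (C s : ℝ) (hs : s < α) (h1 : ∀ t ∈ S, 1 ≤ ht t) (hcard : ∀ t ∈ S, (mem t).card ≤ 3)
    (hS : ∀ X : ℝ, 1 ≤ X → {t | t ∈ S ∧ ht t ≤ X}.Finite ∧ ({t | t ∈ S ∧ ht t ≤ X}.ncard : ℝ) ≤ C * X ^ s) :
    ∀ᵐ ω ∂μ, {t | t ∈ S ∧ ∃ x ∈ mem t, ω ∈ R x ∧ ht t ≤ 2 * (x : ℝ)}.Finite := by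
  classical
  set F : T → Finset ℕ := fun t => (mem t).filter (fun q => ht t ≤ 2 * (q : ℝ)) with hF
  have hae := ae_finite (μ := μ) S ht C (3 * 2 ^ α) s α hs hα.le h1 hS
    (fun t => ⋃ q ∈ F t, R q) (fun t htS => by
      have hH := h1 t htS
      have hH0 : 0 < ht t := by linarith
      calc μ (⋃ q ∈ F t, R q) ≤ ∑ q ∈ F t, μ (R q) := measure_biUnion_finset_le _ _
        _ ≤ ∑ _q ∈ F t, ENNReal.ofReal (2 ^ α * ht t ^ (-α)) := by
            refine Finset.sum_le_sum (fun q hq => ?_)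
            rw [hF, Finset.mem_filter] at hq
            obtain ⟨q1, q4⟩ := hq
            have hq0 : (0 : ℝ) < q := by linarith
            have hq1 : q ≠ 0 := by
              rintro rfl
              simp at hq0
            rw [h.density q hq1]
            apply ENNReal.ofReal_le_ofReal
            have e1 : (q : ℝ) ^ (-α) ≤ (ht t / 2) ^ (-α) :=
              Real.rpow_le_rpow_of_nonpos (by positivity) (by linarith) (by linarith)
            rwa [half_pow' hH0] at e1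
        _ = ENNReal.ofReal ((F t).card * (2 ^ α * ht t ^ (-α))) := by
            rw [Finset.sum_const, nsmul_eq_mul, ENNReal.ofReal_mul (Nat.cast_nonneg _), ENNReal.ofReal_natCast]
        _ ≤ ENNReal.ofReal (3 * 2 ^ α * ht t ^ (-α)) := by
            apply ENNReal.ofReal_le_ofReal
            have hcard : (F t).card ≤ 3 := (Finset.card_filter_le _ _).trans (hcard t htS)
            have hcard' : ((F t).card : ℝ) ≤ 3 := by exact_mod_cast hcard
            rw [mul_assoc]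
            exact mul_le_mul_of_nonneg_right hcard' (by positivity))
  filter_upwards [hae] with ω hω
  refine hω.subset ?_
  rintro t ⟨ht', x, hx, hRx, hx2⟩
  refine ⟨ht', ?_⟩
  rw [Set.mem_iUnion₂]
  exact ⟨x, Finset.mem_filter.2 ⟨hx, hx2⟩, hRx⟩

/-- only finitely many objects of a thin family have two large members in a random set -/
theorem gen_two (h : IsRandomSet α μ R) (hα : 0 < α) {T : Type} [Countable T] (S : Set T) (ht : T → ℝ)
    (mem : T → Finset ℕ) (C s : ℝ) (hs : s < 2 * α) (h1 : ∀ t ∈ S, 1 ≤ ht t) (hcard : ∀ t ∈ S, (mem t).card ≤ 3)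
    (hS : ∀ X : ℝ, 1 ≤ X → {t | t ∈ S ∧ ht t ≤ X}.Finite ∧ ({t | t ∈ S ∧ ht t ≤ X}.ncard : ℝ) ≤ C * X ^ s) :
    ∀ᵐ ω ∂μ, {t | t ∈ S ∧ ∃ x ∈ mem t, ∃ y ∈ mem t, x ≠ y ∧ ω ∈ R x ∧ ω ∈ R y ∧
      ht t ≤ 2 * (x : ℝ) ∧ ht t ≤ 2 * (y : ℝ)}.Finite := by
  classical
  set F : T → Finset (ℕ × ℕ) := fun t => (mem t ×ˢ mem t).filter
    (fun q => q.1 ≠ q.2 ∧ ht t ≤ 2 * (q.1 : ℝ) ∧ ht t ≤ 2 * (q.2 : ℝ)) with hF
  have hae := ae_finite (μ := μ) S ht C (9 * 2 ^ (2 * α)) s (2 * α) hs (by positivity) h1 hS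
    (fun t => ⋃ q ∈ F t, R q.1 ∩ R q.2) (fun t htS => by
      have hH := h1 t htS
      have hH0 : 0 < ht t := by linarith
      calc μ (⋃ q ∈ F t, R q.1 ∩ R q.2) ≤ ∑ q ∈ F t, μ (R q.1 ∩ R q.2) := measure_biUnion_finset_le _ _
        _ ≤ ∑ _q ∈ F t, ENNReal.ofReal (2 ^ (2 * α) * ht t ^ (-(2 * α))) := by
            refine Finset.sum_le_sum (fun q hq => ?_)
            rw [hF, Finset.mem_filter] at hq
            obtain ⟨-, q3, q4, q5⟩ := hq
            have hq1 : q.1 ≠ 0 := by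
              intro h0
              rw [h0] at q4
              simp at q4
              linarith
            have hq2 : q.2 ≠ 0 := by
              intro h0
              rw [h0] at q5
              simp at q5
              linarith
            rw [h.pair q3 hq1 hq2]
            apply ENNReal.ofReal_le_ofReal
            have e1 : (q.1 : ℝ) ^ (-α) ≤ (ht t / 2) ^ (-α) :=
              Real.rpow_le_rpow_of_nonpos (by positivity) (by linarith) (by linarith)
            have e2 : (q.2 : ℝ) ^ (-α) ≤ (ht t / 2) ^ (-α) :=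
              Real.rpow_le_rpow_of_nonpos (by positivity) (by linarith) (by linarith)
            have e3 : 2 ^ (2 * α) * ht t ^ (-(2 * α)) = (ht t / 2) ^ (-α) * (ht t / 2) ^ (-α) := by
              rw [← Real.rpow_add (by positivity), show -α + -α = -(2 * α) by ring, half_pow' hH0]
            rw [e3]
            exact mul_le_mul e1 e2 (by positivity) (by positivity)
        _ = ENNReal.ofReal ((F t).card * (2 ^ (2 * α) * ht t ^ (-(2 * α)))) := by
            rw [Finset.sum_const, nsmul_eq_mul, ENNReal.ofReal_mul (Nat.cast_nonneg _), ENNReal.ofReal_natCast]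
        _ ≤ ENNReal.ofReal (9 * 2 ^ (2 * α) * ht t ^ (-(2 * α))) := by
            apply ENNReal.ofReal_le_ofReal
            have hcard : (F t).card ≤ 9 := by
              refine (Finset.card_filter_le _ _).trans ?_
              rw [Finset.card_product]
              calc (mem t).card * (mem t).card ≤ 3 * 3 := Nat.mul_le_mul (hcard t htS) (hcard t htS)
                _ = 9 := by norm_num
            have hcard' : ((F t).card : ℝ) ≤ 9 := by exact_mod_cast hcard
            rw [mul_assoc]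
            exact mul_le_mul_of_nonneg_right hcard' (by positivity))
  filter_upwards [hae] with ω hω
  refine hω.subset ?_
  rintro t ⟨ht', x, hx, y, hy, hxy, hRx, hRy, hx2, hy2⟩
  refine ⟨ht', ?_⟩
  rw [Set.mem_iUnion₂]
  exact ⟨(x, y), Finset.mem_filter.2 ⟨Finset.mem_product.2 ⟨hx, hy⟩, hxy, hx2, hy2⟩, hRx, hRy⟩

/-- only finitely many objects `(x, y, z)` of a thin family with a large product have all members in a random set -/
theorem gen_three (h : IsRandomSet α μ R) (hα : 0 < α) {T : Type} [Countable T] (S : Set T) (ht : T → ℝ)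
    (x y z : T → ℕ) (C s θ η : ℝ) (hη : 0 < η) (hθ : 0 ≤ θ) (hs : s < θ * α) (h1 : ∀ t ∈ S, 1 ≤ ht t)
    (hne : ∀ t ∈ S, x t ≠ y t ∧ x t ≠ z t ∧ y t ≠ z t ∧ x t ≠ 0 ∧ y t ≠ 0 ∧ z t ≠ 0)
    (hS : ∀ X : ℝ, 1 ≤ X → {t | t ∈ S ∧ ht t ≤ X}.Finite ∧ ({t | t ∈ S ∧ ht t ≤ X}.ncard : ℝ) ≤ C * X ^ s) :
    ∀ᵐ ω ∂μ, {t | t ∈ S ∧ ω ∈ R (x t) ∧ ω ∈ R (y t) ∧ ω ∈ R (z t) ∧
      η * ht t ^ θ ≤ (x t : ℝ) * y t * z t}.Finite := by
  set S' : Set T := {t | t ∈ S ∧ η * ht t ^ θ ≤ (x t : ℝ) * y t * z t} with hS'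
  have hC : ∀ X : ℝ, 1 ≤ X → {t | t ∈ S' ∧ ht t ≤ X}.Finite ∧ ({t | t ∈ S' ∧ ht t ≤ X}.ncard : ℝ) ≤ C * X ^ s := by
    intro X hX
    obtain ⟨h2, h3⟩ := hS X hX
    have hsub : {t | t ∈ S' ∧ ht t ≤ X} ⊆ {t | t ∈ S ∧ ht t ≤ X} := fun t ht' => ⟨ht'.1.1, ht'.2⟩
    refine ⟨h2.subset hsub, le_trans ?_ h3⟩
    exact_mod_cast Set.ncard_le_ncard hsub h2
  have hae := ae_finite (μ := μ) S' ht C (η ^ (-α)) s (θ * α) hs (by positivity) (fun t ht' => h1 t ht'.1) hC
    (fun t => R (x t) ∩ R (y t) ∩ R (z t)) (fun t htS => by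
      obtain ⟨ht1, ht3⟩ := htS
      obtain ⟨e1, e2, e3, e4, e5, e6⟩ := hne t ht1
      have hH0 : 0 < ht t := lt_of_lt_of_le one_pos (h1 t ht1)
      rw [h.triple e1 e2 e3 e4 e5 e6]
      apply ENNReal.ofReal_le_ofReal
      have e7 : (x t : ℝ) ^ (-α) * ((y t : ℝ) ^ (-α) * (z t : ℝ) ^ (-α)) = ((x t : ℝ) * y t * z t) ^ (-α) := by
        rw [Real.mul_rpow (by positivity) (by positivity), Real.mul_rpow (by positivity) (by positivity)]
        ring
      have e8 : η ^ (-α) * ht t ^ (-(θ * α)) = (η * ht t ^ θ) ^ (-α) := by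
        rw [Real.mul_rpow hη.le (by positivity), ← Real.rpow_mul hH0.le]
        congr 2
        ring
      rw [e7, e8]
      exact Real.rpow_le_rpow_of_nonpos (by positivity) ht3 (by linarith))
  filter_upwards [hae] with ω hω
  refine hω.subset ?_
  rintro t ⟨ht', hR1, hR2, hR3, hprod⟩
  exact ⟨⟨ht', hprod⟩, ⟨hR1, hR2⟩, hR3⟩

end Pool.Agent.T6.H23.TB.NN
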