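import Pool.Agent.T6.H23.TB.Size

/-! Thin families of triples `a + b = c` with members in a random set. -/

set_option autoImplicit false

open MeasureTheory ProbabilityTheory Filter Topology

open scoped ENNReal NNReal

namespace Pool.Agent.T6.H23.TB

open Pool.Agent.W17.AB

variable {Ω : Type} [MeasurableSpace Ω] {μ : Measure Ω} {R : GaussianInt → Set Ω} {α : ℝ}

/-- the height of a triple -/
noncomputable def ht (t : Gi × Gi × Gi) : ℝ := max ‖φ t.1‖ (max ‖φ t.2.1‖ ‖φ t.2.2‖)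

/-- the members of a triple -/
def mem3 (t : Gi × Gi × Gi) : Set Gi := {t.1, t.2.1, t.2.2}

/-- only finitely many triples of a thin family have a large member in a random set -/
theorem one_member (h : IsRandomSet α μ R) (hα : 0 < α) (S : Set (Gi × Gi × Gi)) (C s : ℝ) (hs : s < α)
    (h0 : ∀ t ∈ S, t.1 ≠ 0 ∧ t.2.1 ≠ 0 ∧ t.2.2 ≠ 0)
    (hS : ∀ X : ℝ, 1 ≤ X → {t | t ∈ S ∧ ht t ≤ X}.Finite ∧ ({t | t ∈ S ∧ ht t ≤ X}.ncard : ℝ) ≤ C * X ^ s) :
    ∀ᵐ ω ∂μ, {t | t ∈ S ∧ ∃ x ∈ mem3 t, ω ∈ R x ∧ ht t ≤ 2 * ‖φ x‖}.Finite := by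
  classical
  have h1 : ∀ t ∈ S, 1 ≤ ht t := fun t ht' => (one_le_norm (h0 t ht').1).trans (le_max_left _ _)
  set F : Gi × Gi × Gi → Finset Gi := fun t =>
    (({t.1, t.2.1, t.2.2} : Finset Gi).filter (fun q => ht t ≤ 2 * ‖φ q‖)) with hF
  have hae := ae_finite (μ := μ) S ht C (3 * 2 ^ α) s α hs hα.le h1 hS
    (fun t => ⋃ q ∈ F t, R q) (fun t htS => by
      have hH := h1 t htS
      have hH0 : 0 < ht t := by linarith
      have hne : ∀ x ∈ ({t.1, t.2.1, t.2.2} : Finset Gi), x ≠ 0 := by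
        intro x hx
        simp only [Finset.mem_insert, Finset.mem_singleton] at hx
        obtain ⟨e1, e2, e3⟩ := h0 t htS
        rcases hx with rfl | rfl | rfl <;> assumption
      calc μ (⋃ q ∈ F t, R q) ≤ ∑ q ∈ F t, μ (R q) := measure_biUnion_finset_le _ _
        _ ≤ ∑ _q ∈ F t, ENNReal.ofReal (2 ^ α * ht t ^ (-α)) := by
            refine Finset.sum_le_sum (fun q hq => ?_)
            rw [hF, Finset.mem_filter] at hq
            obtain ⟨q1, q4⟩ := hq
            rw [h.density q (hne _ q1)]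
            apply ENNReal.ofReal_le_ofReal
            have e1 : ‖φ q‖ ^ (-α) ≤ (ht t / 2) ^ (-α) :=
              Real.rpow_le_rpow_of_nonpos (by positivity) (by linarith) (by linarith)
            have e3 : 2 ^ α * ht t ^ (-α) = (ht t / 2) ^ (-α) := by
              rw [Real.div_rpow hH0.le (by norm_num), Real.rpow_neg (by norm_num : (0 : ℝ) ≤ 2), div_inv_eq_mul]
              ring
            rw [e3]
            exact e1
        _ = ENNReal.ofReal ((F t).card * (2 ^ α * ht t ^ (-α))) := by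
            rw [Finset.sum_const, nsmul_eq_mul, ENNReal.ofReal_mul (Nat.cast_nonneg _), ENNReal.ofReal_natCast]
        _ ≤ ENNReal.ofReal (3 * 2 ^ α * ht t ^ (-α)) := by
            apply ENNReal.ofReal_le_ofReal
            have hcard : (F t).card ≤ 3 := by
              rw [hF]
              exact (Finset.card_filter_le _ _).trans Finset.card_le_three
            have hcard' : ((F t).card : ℝ) ≤ 3 := by exact_mod_cast hcard
            rw [mul_assoc]
            exact mul_le_mul_of_nonneg_right hcard' (by positivity))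
  filter_upwards [hae] with ω hω
  refine hω.subset ?_
  rintro t ⟨ht', x, hx, hRx, hx2⟩
  refine ⟨ht', ?_⟩
  rw [Set.mem_iUnion₂]
  refine ⟨x, ?_, hRx⟩
  rw [hF, Finset.mem_filter]
  refine ⟨?_, hx2⟩
  simpa [mem3] using hx

/-- only finitely many triples of a thin family have two large members in a random set -/
theorem two_members (h : IsRandomSet α μ R) (hα : 0 < α) (S : Set (Gi × Gi × Gi)) (C s : ℝ) (hs : s < 2 * α)
    (h0 : ∀ t ∈ S, t.1 ≠ 0 ∧ t.2.1 ≠ 0 ∧ t.2.2 ≠ 0)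
    (hS : ∀ X : ℝ, 1 ≤ X → {t | t ∈ S ∧ ht t ≤ X}.Finite ∧ ({t | t ∈ S ∧ ht t ≤ X}.ncard : ℝ) ≤ C * X ^ s) :
    ∀ᵐ ω ∂μ, {t | t ∈ S ∧ ∃ x ∈ mem3 t, ∃ y ∈ mem3 t, x ≠ y ∧ ω ∈ R x ∧ ω ∈ R y ∧
      ht t ≤ 2 * ‖φ x‖ ∧ ht t ≤ 2 * ‖φ y‖}.Finite := by
  classical
  have h1 : ∀ t ∈ S, 1 ≤ ht t := fun t ht' => (one_le_norm (h0 t ht').1).trans (le_max_left _ _)
  set F : Gi × Gi × Gi → Finset (Gi × Gi) := fun t =>
    ((({t.1, t.2.1, t.2.2} : Finset Gi) ×ˢ ({t.1, t.2.1, t.2.2} : Finset Gi)).filter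
      (fun q => q.1 ≠ q.2 ∧ ht t ≤ 2 * ‖φ q.1‖ ∧ ht t ≤ 2 * ‖φ q.2‖)) with hF
  have hae := ae_finite (μ := μ) S ht C (9 * 2 ^ (2 * α)) s (2 * α) hs (by positivity) h1 hS
    (fun t => ⋃ q ∈ F t, R q.1 ∩ R q.2) (fun t htS => by
      have hH := h1 t htS
      have hH0 : 0 < ht t := by linarith
      have hne : ∀ x ∈ ({t.1, t.2.1, t.2.2} : Finset Gi), x ≠ 0 := by
        intro x hx
        simp only [Finset.mem_insert, Finset.mem_singleton] at hx
        obtain ⟨e1, e2, e3⟩ := h0 t htS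
        rcases hx with rfl | rfl | rfl <;> assumption
      calc μ (⋃ q ∈ F t, R q.1 ∩ R q.2) ≤ ∑ q ∈ F t, μ (R q.1 ∩ R q.2) := measure_biUnion_finset_le _ _
        _ ≤ ∑ _q ∈ F t, ENNReal.ofReal (2 ^ (2 * α) * ht t ^ (-(2 * α))) := by
            refine Finset.sum_le_sum (fun q hq => ?_)
            rw [hF, Finset.mem_filter, Finset.mem_product] at hq
            obtain ⟨⟨q1, q2⟩, q3, q4, q5⟩ := hq
            rw [h.pair q3 (hne _ q1) (hne _ q2)]
            apply ENNReal.ofReal_le_ofReal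
            have e1 : ‖φ q.1‖ ^ (-α) ≤ (ht t / 2) ^ (-α) :=
              Real.rpow_le_rpow_of_nonpos (by positivity) (by linarith) (by linarith)
            have e2 : ‖φ q.2‖ ^ (-α) ≤ (ht t / 2) ^ (-α) :=
              Real.rpow_le_rpow_of_nonpos (by positivity) (by linarith) (by linarith)
            have e3 : 2 ^ (2 * α) * ht t ^ (-(2 * α)) = (ht t / 2) ^ (-α) * (ht t / 2) ^ (-α) := by
              rw [← Real.rpow_add (by positivity), show -α + -α = -(2 * α) by ring,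
                Real.div_rpow hH0.le (by norm_num), Real.rpow_neg (by norm_num : (0 : ℝ) ≤ 2), div_inv_eq_mul]
              ring
            rw [e3]
            exact mul_le_mul e1 e2 (by positivity) (by positivity)
        _ = ENNReal.ofReal ((F t).card * (2 ^ (2 * α) * ht t ^ (-(2 * α)))) := by
            rw [Finset.sum_const, nsmul_eq_mul, ENNReal.ofReal_mul (Nat.cast_nonneg _), ENNReal.ofReal_natCast]
        _ ≤ ENNReal.ofReal (9 * 2 ^ (2 * α) * ht t ^ (-(2 * α))) := by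
            apply ENNReal.ofReal_le_ofReal
            have hcard : (F t).card ≤ 9 := by
              rw [hF]
              refine (Finset.card_filter_le _ _).trans ?_
              rw [Finset.card_product]
              have h3 : ({t.1, t.2.1, t.2.2} : Finset Gi).card ≤ 3 := Finset.card_le_three
              calc _ ≤ 3 * 3 := Nat.mul_le_mul h3 h3
                _ = 9 := by norm_num
            have hcard' : ((F t).card : ℝ) ≤ 9 := by exact_mod_cast hcard
            rw [mul_assoc]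
            exact mul_le_mul_of_nonneg_right hcard' (by positivity))
  filter_upwards [hae] with ω hω
  refine hω.subset ?_
  rintro t ⟨ht', x, hx, y, hy, hxy, hRx, hRy, hx2, hy2⟩
  refine ⟨ht', ?_⟩
  rw [Set.mem_iUnion₂]
  refine ⟨(x, y), ?_, hRx, hRy⟩
  rw [hF, Finset.mem_filter, Finset.mem_product]
  refine ⟨⟨?_, ?_⟩, hxy, hx2, hy2⟩
  · simpa [mem3] using hx
  · simpa [mem3] using hy

/-- only finitely many triples of a thin family have all members in a random set and a large product -/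
theorem three_members (h : IsRandomSet α μ R) (hα : 0 < α) (S : Set (Gi × Gi × Gi)) (C s θ η : ℝ) (hη : 0 < η)
    (hθ : 0 ≤ θ) (hs : s < θ * α)
    (h0 : ∀ t ∈ S, t.1 ≠ 0 ∧ t.2.1 ≠ 0 ∧ t.2.2 ≠ 0 ∧ t.1 + t.2.1 = t.2.2 ∧ IsCoprime t.1 t.2.1)
    (hS : ∀ X : ℝ, 1 ≤ X → {t | t ∈ S ∧ ht t ≤ X}.Finite ∧ ({t | t ∈ S ∧ ht t ≤ X}.ncard : ℝ) ≤ C * X ^ s) :
    ∀ᵐ ω ∂μ, {t | t ∈ S ∧ ω ∈ R t.1 ∧ ω ∈ R t.2.1 ∧ ω ∈ R t.2.2 ∧
      η * ht t ^ θ ≤ ‖φ t.1‖ * ‖φ t.2.1‖ * ‖φ t.2.2‖}.Finite := by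
  classical
  set S' : Set (Gi × Gi × Gi) := {t | t ∈ S ∧ t.1 ≠ t.2.1 ∧ η * ht t ^ θ ≤ ‖φ t.1‖ * ‖φ t.2.1‖ * ‖φ t.2.2‖} with hS'
  have h1 : ∀ t ∈ S', 1 ≤ ht t := fun t ht' => (one_le_norm (h0 t ht'.1).1).trans (le_max_left _ _)
  have hC : ∀ X : ℝ, 1 ≤ X → {t | t ∈ S' ∧ ht t ≤ X}.Finite ∧ ({t | t ∈ S' ∧ ht t ≤ X}.ncard : ℝ) ≤ C * X ^ s := by
    intro X hX
    obtain ⟨h2, h3⟩ := hS X hX
    have hsub : {t | t ∈ S' ∧ ht t ≤ X} ⊆ {t | t ∈ S ∧ ht t ≤ X} := fun t ht' => ⟨ht'.1.1, ht'.2⟩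
    refine ⟨h2.subset hsub, le_trans ?_ h3⟩
    exact_mod_cast Set.ncard_le_ncard hsub h2
  have hae := ae_finite (μ := μ) S' ht C (η ^ (-α)) s (θ * α) hs (by positivity) h1 hC
    (fun t => R t.1 ∩ R t.2.1 ∩ R t.2.2) (fun t htS => by
      obtain ⟨ht1, ht2, ht3⟩ := htS
      obtain ⟨e1, e2, e3, e4, e5⟩ := h0 t ht1
      have hH := (one_le_norm e1).trans (le_max_left _ (max ‖φ t.2.1‖ ‖φ t.2.2‖))
      have hH0 : 0 < ht t := lt_of_lt_of_le one_pos hH
      have e6 : t.1 ≠ t.2.2 := by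
        intro h'
        rw [← h'] at e4
        exact e2 (by simpa using e4)
      have e7 : t.2.1 ≠ t.2.2 := by
        intro h'
        rw [← h'] at e4
        exact e1 (by simpa using e4)
      rw [h.triple ht2 e6 e7 e1 e2 e3]
      apply ENNReal.ofReal_le_ofReal
      have e8 : η ^ (-α) * ht t ^ (-(θ * α)) = (η * ht t ^ θ) ^ (-α) := by
        rw [Real.mul_rpow hη.le (by positivity), ← Real.rpow_mul hH0.le]
        congr 2
        ring
      rw [e8]
      exact Real.rpow_le_rpow_of_nonpos (by positivity) ht3 (by linarith))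
  filter_upwards [hae] with ω hω
  refine (hω.union (hS 2 (by norm_num)).1).subset ?_
  rintro t ⟨ht', hR1, hR2, hR3, hprod⟩
  by_cases heq : t.1 = t.2.1
  · right
    obtain ⟨e1, e2, e3, e4, e5⟩ := h0 t ht'
    refine ⟨ht', ?_⟩
    rw [← heq] at e5 e4
    have hu : IsUnit t.1 := isCoprime_self.1 e5
    have hn : ‖φ t.1‖ = 1 := by
      have h2 := nm_real t.1
      rw [nm_unit hu] at h2
      have h3 := norm_nonneg (φ t.1)
      push_cast at h2
      nlinarith
    unfold ht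
    rw [← heq, ← e4, hn]
    have h5 : ‖φ (t.1 + t.1)‖ ≤ 2 := by
      rw [φ_add]
      calc ‖φ t.1 + φ t.1‖ ≤ ‖φ t.1‖ + ‖φ t.1‖ := norm_add_le _ _
        _ = 2 := by rw [hn]; norm_num
    exact max_le (by norm_num) (max_le (by norm_num) h5)
  · left
    exact ⟨⟨ht', heq, hprod⟩, ⟨hR1, hR2⟩, hR3⟩

end Pool.Agent.T6.H23.TB
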