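import Pool.Agent.T6.H23.TB.Prob

/-! Borel-Cantelli for families of events indexed by a set with polynomial counting function. -/

set_option autoImplicit false

open MeasureTheory ProbabilityTheory Filter Topology

open scoped ENNReal NNReal

namespace Pool.Agent.T6.H23.TB

/-- a sum over a set with polynomial counting function -/
theorem tsum_ne_top {T : Type*} (S : Set T) (h : T → ℝ) (C s p : ℝ) (hp : s < p) (hp0 : 0 ≤ p)
    (h1 : ∀ t ∈ S, 1 ≤ h t)
    (hS : ∀ X : ℝ, 1 ≤ X → {t | t ∈ S ∧ h t ≤ X}.Finite ∧ ({t | t ∈ S ∧ h t ≤ X}.ncard : ℝ) ≤ C * X ^ s) :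
    ∑' t : S, ENNReal.ofReal (h t ^ (-p)) ≠ ∞ := by
  have hC : 0 ≤ C := by
    have := (hS 1 le_rfl).2
    rw [Real.one_rpow, mul_one] at this
    exact le_trans (Nat.cast_nonneg _) this
  set W : ℕ → Set T := fun k => {t | t ∈ S ∧ (2 : ℝ) ^ k ≤ h t ∧ h t ≤ 2 ^ (k + 1)} with hW
  have hcov : S ⊆ ⋃ k, W k := by
    intro t ht
    obtain ⟨k, hk1, hk2⟩ := exists_nat_pow_near (h1 t ht) (by norm_num : (1 : ℝ) < 2)
    exact Set.mem_iUnion.2 ⟨k, ht, hk1, hk2.le⟩
  have hle : ∑' t : S, ENNReal.ofReal (h t ^ (-p)) ≤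
      ∑' t : (⋃ k, W k : Set T), ENNReal.ofReal (h t ^ (-p)) := by
    have hinj : Function.Injective (fun t : S => (⟨t.1, hcov t.2⟩ : (⋃ k, W k : Set T))) := by
      intro a b hab
      exact Subtype.ext (by simpa using hab)
    exact ENNReal.tsum_comp_le_tsum_of_injective hinj
      (fun t : (⋃ k, W k : Set T) => ENNReal.ofReal (h t ^ (-p)))
  have hle2 := ENNReal.tsum_iUnion_le_tsum (fun t => ENNReal.ofReal (h t ^ (-p))) W
  have hshell : ∀ k : ℕ, ∑' t : W k, ENNReal.ofReal (h t ^ (-p)) ≤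
      ENNReal.ofReal (C * 2 ^ s * ((2 : ℝ) ^ (s - p)) ^ k) := by
    intro k
    have h2k : (1 : ℝ) ≤ 2 ^ (k + 1) := one_le_pow₀ (by norm_num)
    obtain ⟨hf, hc⟩ := hS (2 ^ (k + 1)) h2k
    have hsub : W k ⊆ {t | t ∈ S ∧ h t ≤ 2 ^ (k + 1)} := fun t ht => ⟨ht.1, ht.2.2⟩
    have hWf : (W k).Finite := hf.subset hsub
    have := hWf.fintype
    have hcard : ((W k).ncard : ℝ) ≤ C * (2 ^ (k + 1) : ℝ) ^ s :=
      le_trans (by exact_mod_cast Set.ncard_le_ncard hsub hf) hc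
    have hterm : ∀ t : W k, ENNReal.ofReal (h t ^ (-p)) ≤ ENNReal.ofReal (((2 : ℝ) ^ k) ^ (-p)) := by
      intro t
      apply ENNReal.ofReal_le_ofReal
      exact Real.rpow_le_rpow_of_nonpos (by positivity) t.2.2.1 (by linarith)
    calc ∑' t : W k, ENNReal.ofReal (h t ^ (-p)) ≤ ∑' _ : W k, ENNReal.ofReal (((2 : ℝ) ^ k) ^ (-p)) :=
          ENNReal.tsum_le_tsum hterm
      _ = ENNReal.ofReal (((W k).ncard : ℝ) * ((2 : ℝ) ^ k) ^ (-p)) := by
          rw [tsum_fintype, Finset.sum_const, Finset.card_univ, nsmul_eq_mul,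
            ENNReal.ofReal_mul (Nat.cast_nonneg _), ENNReal.ofReal_natCast, ← Nat.card_eq_fintype_card]
          rfl
      _ ≤ ENNReal.ofReal (C * 2 ^ s * ((2 : ℝ) ^ (s - p)) ^ k) := by
          apply ENNReal.ofReal_le_ofReal
          calc ((W k).ncard : ℝ) * ((2 : ℝ) ^ k) ^ (-p) ≤ (C * (2 ^ (k + 1) : ℝ) ^ s) * ((2 : ℝ) ^ k) ^ (-p) :=
                mul_le_mul_of_nonneg_right hcard (by positivity)
            _ = C * 2 ^ s * ((2 : ℝ) ^ (s - p)) ^ k := by
                rw [← Real.rpow_natCast, ← Real.rpow_natCast, ← Real.rpow_natCast, ← Real.rpow_mul (by norm_num),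
                  ← Real.rpow_mul (by norm_num), ← Real.rpow_mul (by norm_num), mul_assoc, mul_assoc,
                  ← Real.rpow_add (by norm_num), ← Real.rpow_add (by norm_num)]
                congr 2
                push_cast
                ring
  have hsum : Summable (fun k : ℕ => C * 2 ^ s * ((2 : ℝ) ^ (s - p)) ^ k) := by
    apply Summable.mul_left
    apply summable_geometric_of_lt_one (by positivity)
    exact Real.rpow_lt_one_of_one_lt_of_neg (by norm_num) (by linarith)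
  refine ne_top_of_le_ne_top ?_ (hle.trans (hle2.trans (ENNReal.tsum_le_tsum hshell)))
  rw [← ENNReal.ofReal_tsum_of_nonneg (fun k => by positivity) hsum]
  exact ENNReal.ofReal_ne_top

variable {Ω : Type*} [MeasurableSpace Ω] {μ : Measure Ω}

/-- Borel-Cantelli for events indexed by a thin set -/
theorem ae_finite {T : Type*} [Countable T] (S : Set T) (h : T → ℝ) (C K s p : ℝ) (hp : s < p) (hp0 : 0 ≤ p)
    (h1 : ∀ t ∈ S, 1 ≤ h t)
    (hS : ∀ X : ℝ, 1 ≤ X → {t | t ∈ S ∧ h t ≤ X}.Finite ∧ ({t | t ∈ S ∧ h t ≤ X}.ncard : ℝ) ≤ C * X ^ s)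
    (E : T → Set Ω) (hE : ∀ t ∈ S, μ (E t) ≤ ENNReal.ofReal (K * h t ^ (-p))) :
    ∀ᵐ ω ∂μ, {t | t ∈ S ∧ ω ∈ E t}.Finite := by
  have hsum : ∑' t : S, μ (E t) ≠ ∞ := by
    have h2 : ∑' t : S, μ (E t) ≤ ∑' t : S, ENNReal.ofReal (|K|) * ENNReal.ofReal (h t ^ (-p)) := by
      apply ENNReal.tsum_le_tsum
      intro t
      refine (hE t t.2).trans ?_
      rw [← ENNReal.ofReal_mul (abs_nonneg K)]
      apply ENNReal.ofReal_le_ofReal
      exact mul_le_mul_of_nonneg_right (le_abs_self K)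
        (Real.rpow_nonneg (by linarith [h1 t t.2]) _)
    rw [ENNReal.tsum_mul_left] at h2
    exact ne_top_of_le_ne_top (ENNReal.mul_ne_top ENNReal.ofReal_ne_top (tsum_ne_top S h C s p hp hp0 h1 hS)) h2
  filter_upwards [ae_finite_setOfPred_mem hsum] with ω hω
  have h3 : {t | t ∈ S ∧ ω ∈ E t} ⊆ Subtype.val '' {t : S | ω ∈ E t} := by
    rintro t ⟨ht, htE⟩
    exact ⟨⟨t, ht⟩, htE, rfl⟩
  exact (hω.image _).subset h3

end Pool.Agent.T6.H23.TB
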