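import Pool.Agent.W17.AB.Count
import Pool.Agent.T6.H23.TB.BC

/-! Gaussian integers of absolute value less than `|c|` coprime to `c`: a lower bound for their number, and disjoint
pairs of coprime elements with sum `c`. -/

set_option autoImplicit false

open Finset

namespace Pool.Agent.T6.H23.TB

open Pool.Agent.W17.AB

noncomputable local instance instDec : DecidableEq Gi := Classical.decEq _

attribute [local instance] Pool.Agent.W17.AB.instNM

/-- a complete system of residues, given by a function -/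
theorem exists_rep (c : Gi) (hc : c ≠ 0) : ∃ rep : Gi → Gi, (∀ x, c ∣ x - rep x) ∧
    (∀ x y, c ∣ x - y → rep x = rep y) ∧ ∀ x, nm (rep x) < nm c := by
  refine ⟨fun x => (Quotient.out (Ideal.Quotient.mk (Ideal.span {c}) x) : Gi) % c, ?_, ?_, ?_⟩
  · intro x
    have h1 : c ∣ (Quotient.out (Ideal.Quotient.mk (Ideal.span {c}) x) : Gi) - x := by
      rw [← Ideal.mem_span_singleton, ← Ideal.Quotient.eq]
      exact Quotient.out_eq _
    have h2 := EuclideanDomain.div_add_mod (Quotient.out (Ideal.Quotient.mk (Ideal.span {c}) x) : Gi) c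
    obtain ⟨k, hk⟩ := h1
    refine ⟨(Quotient.out (Ideal.Quotient.mk (Ideal.span {c}) x) : Gi) / c - k, ?_⟩
    linear_combination -h2 - hk
  · intro x y hxy
    have h1 : Ideal.Quotient.mk (Ideal.span {c}) x = Ideal.Quotient.mk (Ideal.span {c}) y := by
      rw [Ideal.Quotient.eq, Ideal.mem_span_singleton]
      exact hxy
    simp only [h1]
  · intro x
    exact GaussianInt.natAbs_norm_mod_lt _ hc

open scoped Classical in
/-- the sieve -/
theorem sieve (c : Gi) (hc : c ≠ 0) : ∃ F : Finset Gi, (∀ a ∈ F, nm a < nm c) ∧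
    (∀ K : Finset Gi, (∀ x ∈ K, ∀ y ∈ K, c ∣ x - y → x = y) → K.card ≤ F.card) ∧
    ∀ S : Finset Gi, S ⊆ pfs c → F.card ≤ 2 ^ S.card * (F.filter (fun a => ∀ Q ∈ S, ¬ Q ∣ a)).card := by
  obtain ⟨rep, h1, h2, h3⟩ := exists_rep c hc
  set F : Finset Gi := (insert 0 (bx (nm c))).filter (fun y => rep y = y) with hF
  have hrr : ∀ x, rep (rep x) = rep x := by
    intro x
    refine h2 _ _ ?_
    have := (h1 x).neg_right
    rwa [neg_sub] at this
  have hrF : ∀ x, rep x ∈ F := by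
    intro x
    rw [hF, mem_filter]
    refine ⟨?_, hrr x⟩
    rw [mem_insert, mem_bx]
    by_cases h : rep x = 0
    · exact Or.inl h
    · exact Or.inr ⟨h, (h3 x).le⟩
  have hFr : ∀ a ∈ F, rep a = a := fun a ha => (mem_filter.1 ha).2
  refine ⟨F, fun a ha => by rw [← hFr a ha]; exact h3 a, fun K hK => ?_, fun S => ?_⟩
  · refine card_le_card_of_injOn rep (fun x _ => hrF x) ?_
    intro x hx y hy hxy
    refine hK x hx y hy ?_
    have e1 := dvd_sub (h1 x) (h1 y)
    have e2 : x - rep x - (y - rep y) = x - y := by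
      rw [hxy]
      ring
    rwa [e2] at e1
  · induction S using Finset.induction_on with
    | empty => intro _; simp
    | insert Q S hQ ih =>
      intro hS
      have hQc : Q ∈ pfs c := hS (mem_insert_self _ _)
      have hSc : S ⊆ pfs c := fun x hx => hS (mem_insert_of_mem hx)
      have h4 := ih hSc
      set A := F.filter (fun a => ∀ R ∈ S, ¬ R ∣ a) with hA
      have hsub : F.filter (fun a => ∀ R ∈ insert Q S, ¬ R ∣ a) = A.filter (fun a => ¬ Q ∣ a) := by
        ext a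
        simp only [hA, mem_filter, mem_insert, forall_eq_or_imp]
        tauto
      rw [hsub, card_insert_of_notMem hQ]
      have h5 : (A.filter (fun a => Q ∣ a)).card ≤ (A.filter (fun a => ¬ Q ∣ a)).card := by
        set m : Gi := ∏ R ∈ S, R with hm
        have hQp : Prime Q := (np_of_mem hQc).1
        have hQm : ¬ Q ∣ m := by
          intro h
          obtain ⟨R, hR, hQR⟩ := (Prime.dvd_finsetProd_iff hQp _).1 h
          have hRc : R ∈ pfs c := hSc hR
          have h6 : Associated Q R := (hQp.dvd_prime_iff_associated (np_of_mem hRc).1).1 hQR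
          have h7 : Q = R := by
            rw [← (np_of_mem hQc).2, ← (np_of_mem hRc).2]
            exact normalize_eq_normalize h6.dvd h6.symm.dvd
          exact hQ (h7 ▸ hR)
        have hdv : ∀ R : Gi, R ∣ c → ∀ x : Gi, R ∣ rep x ↔ R ∣ x := by
          intro R hRc x
          exact (dvd_iff_dvd_of_dvd_sub (hRc.trans (h1 x))).symm
        refine card_le_card_of_injOn (fun a => rep (a + m)) ?_ ?_
        · intro a ha
          rw [mem_coe, mem_filter, hA, mem_filter] at ha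
          obtain ⟨⟨_, ha2⟩, ha3⟩ := ha
          rw [mem_coe, mem_filter, hA, mem_filter]
          refine ⟨⟨hrF _, fun R hR => ?_⟩, ?_⟩
          · rw [hdv R (dvd_of_mem (hSc hR))]
            intro h
            exact ha2 R hR ((dvd_add_left (dvd_prod_of_mem (fun x => x) hR)).1 h)
          · rw [hdv Q (dvd_of_mem hQc)]
            intro h
            exact hQm ((dvd_add_right ha3).1 h)
        · intro x hx y hy hxy
          rw [mem_coe, mem_filter, hA, mem_filter] at hx hy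
          have e1 := dvd_sub (h1 (x + m)) (h1 (y + m))
          have e2 : x + m - rep (x + m) - (y + m - rep (y + m)) = x - y := by
            simp only at hxy
            rw [hxy]
            ring
          rw [e2] at e1
          rw [← hFr x hx.1.1, ← hFr y hy.1.1]
          exact h2 x y e1
      have h6 : (A.filter (fun a => Q ∣ a)).card + (A.filter (fun a => ¬ Q ∣ a)).card = A.card :=
        card_filter_add_card_filter_not _
      calc F.card ≤ 2 ^ S.card * A.card := h4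
        _ ≤ 2 ^ S.card * (2 * (A.filter (fun a => ¬ Q ∣ a)).card) := Nat.mul_le_mul_left _ (by omega)
        _ = 2 ^ (S.card + 1) * (A.filter (fun a => ¬ Q ∣ a)).card := by ring

/-- the Gaussian integers in a small square -/
theorem square (c : Gi) (hc : c ≠ 0) : ∃ K : Finset Gi, (∀ x ∈ K, ∀ y ∈ K, c ∣ x - y → x = y) ∧
    (nm c : ℝ) / 9 ≤ K.card ∧ ∀ x ∈ K, nm x ≤ nm c := by
  set t : ℤ := ⌊‖φ c‖ / 3⌋ with ht
  have hpos : 0 < ‖φ c‖ := norm_pos_iff.2 (φ_ne hc)
  have ht0 : 0 ≤ t := Int.floor_nonneg.2 (by positivity)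
  have ht1 : (t : ℝ) ≤ ‖φ c‖ / 3 := Int.floor_le _
  have ht2 : ‖φ c‖ / 3 < t + 1 := Int.lt_floor_add_one _
  have hnm := nm_real c
  refine ⟨(Icc (-t) t ×ˢ Icc (-t) t).image (fun p => (⟨p.1, p.2⟩ : Gi)), ?_, ?_⟩
  · intro x hx y hy hd
    obtain ⟨p, hp, rfl⟩ := mem_image.1 hx
    obtain ⟨q, hq, rfl⟩ := mem_image.1 hy
    simp only [mem_product, mem_Icc] at hp hq
    by_contra hne
    have h1 : (⟨p.1, p.2⟩ : Gi) - ⟨q.1, q.2⟩ ≠ 0 := sub_ne_zero.2 hne
    have h2 := nm_le_of_dvd h1 hd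
    have h3 := nm_val ((⟨p.1, p.2⟩ : Gi) - ⟨q.1, q.2⟩)
    simp only [Zsqrtd.re_sub, Zsqrtd.im_sub] at h3
    have h4 : (p.1 - q.1) ^ 2 ≤ (2 * t) ^ 2 := by
      apply sq_le_sq'
      · linarith [hp.1.1, hq.1.2]
      · linarith [hp.1.2, hq.1.1]
    have h5 : (p.2 - q.2) ^ 2 ≤ (2 * t) ^ 2 := by
      apply sq_le_sq'
      · linarith [hp.2.1, hq.2.2]
      · linarith [hp.2.2, hq.2.1]
    have h6 : (nm c : ℤ) ≤ 8 * t ^ 2 := by
      have : (nm c : ℤ) ≤ (nm ((⟨p.1, p.2⟩ : Gi) - ⟨q.1, q.2⟩) : ℤ) := by exact_mod_cast h2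
      linarith
    have h7 : (nm c : ℝ) ≤ 8 * (t : ℝ) ^ 2 := by exact_mod_cast h6
    rw [hnm] at h7
    have h8 : (0 : ℝ) ≤ t := by exact_mod_cast ht0
    nlinarith
  refine ⟨?_, ?_⟩
  · rw [card_image_of_injective]
    · rw [card_product, Int.card_Icc, hnm]
      have h8 : (0 : ℝ) ≤ t := by exact_mod_cast ht0
      have h9 : ((t + 1 - -t).toNat : ℝ) = 2 * t + 1 := by
        have : ((t + 1 - -t).toNat : ℤ) = 2 * t + 1 := by
          rw [Int.toNat_of_nonneg (by linarith)]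
          ring
        exact_mod_cast this
      push_cast
      rw [h9]
      have h10 : (‖φ c‖ / 3) ≤ 2 * (t : ℝ) + 1 := by linarith
      nlinarith
    · rintro ⟨a, b⟩ ⟨a', b'⟩ h
      simp only [Zsqrtd.mk.injEq] at h
      simp [h.1, h.2]
  · intro x hx
    obtain ⟨p, hp, rfl⟩ := mem_image.1 hx
    simp only [mem_product, mem_Icc] at hp
    have h3 := nm_val (⟨p.1, p.2⟩ : Gi)
    simp only at h3
    have h4 : p.1 ^ 2 ≤ t ^ 2 := sq_le_sq' hp.1.1 hp.1.2
    have h5 : p.2 ^ 2 ≤ t ^ 2 := sq_le_sq' hp.2.1 hp.2.2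
    have h6 : (nm (⟨p.1, p.2⟩ : Gi) : ℤ) ≤ 2 * t ^ 2 := by linarith
    have h7 : (nm (⟨p.1, p.2⟩ : Gi) : ℝ) ≤ 2 * (t : ℝ) ^ 2 := by exact_mod_cast h6
    have h8 : (0 : ℝ) ≤ t := by exact_mod_cast ht0
    have h9 : (nm (⟨p.1, p.2⟩ : Gi) : ℝ) ≤ nm c := by
      rw [hnm]
      nlinarith
    exact_mod_cast h9

theorem omega_le (C : ℝ) (hC : 1 ≤ C) (ε : ℝ) (hε : 0 < ε) : ∃ D : ℝ, 0 < D ∧
    ∀ x : Gi, x ≠ 0 → C ^ (pfs x).card ≤ D * (nm x : ℝ) ^ ε := by
  obtain ⟨D, hD, h⟩ := submult C hC ε hε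
  refine ⟨D, hD, fun x hx => le_trans ?_ (h x hx)⟩
  rw [← prod_const]
  refine prod_le_prod (fun _ _ => by linarith) fun p _ => ?_
  have : (0 : ℝ) ≤ vv x p := Nat.cast_nonneg _
  nlinarith

open scoped Classical in
/-- many residues coprime to `c` -/
theorem many_coprime (δ : ℝ) (hδ : 0 < δ) : ∃ η : ℝ, 0 < η ∧ ∀ c : Gi, c ≠ 0 → ∃ F : Finset Gi,
    (∀ a ∈ F, IsCoprime a c ∧ nm a < nm c) ∧ η * ‖φ c‖ ^ (2 - δ) ≤ F.card := by
  obtain ⟨D, hD, hω⟩ := omega_le 2 (by norm_num) (δ / 2) (by positivity)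
  refine ⟨1 / (9 * D), by positivity, fun c hc => ?_⟩
  obtain ⟨F, hF1, hF2, hF3⟩ := sieve c hc
  obtain ⟨K, hK1, hK2, _⟩ := square c hc
  refine ⟨F.filter (fun a => ∀ Q ∈ pfs c, ¬ Q ∣ a), fun a ha => ?_, ?_⟩
  · rw [mem_filter] at ha
    refine ⟨?_, hF1 a ha.1⟩
    refine isCoprime_of_prime_dvd (fun h => hc h.2) (fun z hz hza hzc => ?_)
    obtain ⟨q, hq, hzq⟩ := exists_mem_of_dvd hc hz hzc
    exact ha.2 q hq (hzq.symm.dvd.trans hza)
  · have h1 := hF3 (pfs c) (Finset.Subset.refl _)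
    have h2 : (F.card : ℝ) ≤ 2 ^ (pfs c).card *
        ((F.filter (fun a => ∀ Q ∈ pfs c, ¬ Q ∣ a)).card : ℝ) := by exact_mod_cast h1
    have h3 : (K.card : ℝ) ≤ F.card := by exact_mod_cast hF2 K hK1
    have h4 := hω c hc
    have hpos : 0 < ‖φ c‖ := norm_pos_iff.2 (φ_ne hc)
    have h5 : (nm c : ℝ) ^ (δ / 2) = ‖φ c‖ ^ δ := by
      rw [nm_real, ← Real.rpow_natCast, ← Real.rpow_mul hpos.le]
      congr 1
      push_cast
      ring
    rw [h5] at h4
    have h6 : (nm c : ℝ) = ‖φ c‖ ^ (2 - δ) * ‖φ c‖ ^ δ := by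
      rw [nm_real, ← Real.rpow_add hpos, sub_add_cancel]
      norm_cast
    have h7 : ‖φ c‖ ^ (2 - δ) * ‖φ c‖ ^ δ / 9 ≤ D * ‖φ c‖ ^ δ *
        ((F.filter (fun a => ∀ Q ∈ pfs c, ¬ Q ∣ a)).card : ℝ) := by
      rw [← h6]
      refine (hK2.trans (h3.trans h2)).trans (mul_le_mul_of_nonneg_right h4 (Nat.cast_nonneg _))
    have h8 : 0 < ‖φ c‖ ^ δ := Real.rpow_pos_of_pos hpos _
    rw [div_mul_eq_mul_div, one_mul, div_le_iff₀ (by positivity)]
    have h9 : ‖φ c‖ ^ δ * (‖φ c‖ ^ (2 - δ)) ≤ ‖φ c‖ ^ δ *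
        (((F.filter (fun a => ∀ Q ∈ pfs c, ¬ Q ∣ a)).card : ℝ) * (9 * D)) := by
      nlinarith
    exact le_of_mul_le_mul_left h9 h8

end Pool.Agent.T6.H23.TB
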