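import Pool.Agent.T6.H23.TB.BC

/-! Natural numbers: many numbers coprime to `n`, random sets, representations, counting function. -/

set_option autoImplicit false

open MeasureTheory ProbabilityTheory Filter Topology

open scoped ENNReal NNReal

namespace Pool.Agent.T6.H23.TB.NN

theorem prod_ge (P : Finset ℕ) : (∀ p ∈ P, 2 ≤ p) →
    1 / ((P.card : ℝ) + 1) ≤ ∏ p ∈ P, (1 - (p : ℝ)⁻¹) := by
  induction P using Finset.induction_on_max with
  | empty => intro _; simp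
  | insert m P hm ih =>
    intro hP
    have hmP : m ∉ P := fun h => lt_irrefl _ (hm m h)
    have h1 := ih (fun p hp => hP p (Finset.mem_insert_of_mem hp))
    have hm2 : 2 ≤ m := hP m (Finset.mem_insert_self _ _)
    have hsub : P ⊆ Finset.Ico 2 m := by
      intro p hp
      rw [Finset.mem_Ico]
      exact ⟨hP p (Finset.mem_insert_of_mem hp), hm p hp⟩
    have hcard : P.card + 2 ≤ m := by
      have := Finset.card_le_card hsub
      rw [Nat.card_Ico] at this
      omega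
    have hcard' : (P.card : ℝ) + 2 ≤ m := by exact_mod_cast hcard
    rw [Finset.prod_insert hmP, Finset.card_insert_of_notMem hmP]
    push_cast
    have hk : (0 : ℝ) ≤ P.card := Nat.cast_nonneg _
    have h2 : 1 / ((P.card : ℝ) + 1 + 1) ≤ (1 - (m : ℝ)⁻¹) * (1 / ((P.card : ℝ) + 1)) := by
      have h3 : (m : ℝ)⁻¹ ≤ ((P.card : ℝ) + 2)⁻¹ := inv_anti₀ (by positivity) hcard'
      have h4 : (1 - ((P.card : ℝ) + 2)⁻¹) * (1 / ((P.card : ℝ) + 1)) = 1 / ((P.card : ℝ) + 1 + 1) := by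
        field_simp
        ring
      rw [← h4]
      exact mul_le_mul_of_nonneg_right (by linarith) (by positivity)
    refine h2.trans (mul_le_mul_of_nonneg_left h1 ?_)
    have : (m : ℝ)⁻¹ ≤ 1 := inv_le_one_of_one_le₀ (by exact_mod_cast (by omega : 1 ≤ m))
    linarith

theorem totient_ge (δ : ℝ) (hδ : 0 < δ) : ∃ η : ℝ, 0 < η ∧ ∀ n : ℕ, 1 ≤ n →
    η * (n : ℝ) ^ (1 - δ) ≤ Nat.totient n := by
  refine ⟨(1 / (δ * Real.log 2) + 1)⁻¹, by
    have := Real.log_pos (by norm_num : (1 : ℝ) < 2)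
    positivity, fun n hn => ?_⟩
  have hn1 : (1 : ℝ) ≤ n := by exact_mod_cast hn
  have hn0 : (0 : ℝ) < n := by linarith
  have hl2 := Real.log_pos (by norm_num : (1 : ℝ) < 2)
  have h1 : (Nat.totient n : ℝ) = n * ∏ p ∈ n.primeFactors, (1 - (p : ℝ)⁻¹) := by
    have := Nat.totient_eq_mul_prod_factors n
    have h2 : ((Nat.totient n : ℚ) : ℝ) = ((n * ∏ p ∈ n.primeFactors, (1 - (p : ℚ)⁻¹) : ℚ) : ℝ) := by
      rw [this]
    push_cast at h2
    exact h2
  have h2 := prod_ge n.primeFactors (fun p hp => (Nat.prime_of_mem_primeFactors hp).two_le)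
  have h3 : (2 : ℝ) ^ n.primeFactors.card ≤ n := by
    have h4 : 2 ^ n.primeFactors.card ≤ ∏ p ∈ n.primeFactors, p :=
      Finset.pow_card_le_prod _ _ _ (fun p hp => (Nat.prime_of_mem_primeFactors hp).two_le)
    have h5 : ∏ p ∈ n.primeFactors, p ≤ n := Nat.le_of_dvd (by omega) (Nat.prod_primeFactors_dvd n)
    exact_mod_cast h4.trans h5
  have h4 : (n.primeFactors.card : ℝ) * Real.log 2 ≤ Real.log n := by
    have := Real.log_le_log (by positivity) h3
    rwa [Real.log_pow] at this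
  have h5 : Real.log n ≤ (n : ℝ) ^ δ / δ := Real.log_le_rpow_div hn0.le hδ
  have h6 : 1 ≤ (n : ℝ) ^ δ := Real.one_le_rpow hn1 hδ.le
  have h7 : (n.primeFactors.card : ℝ) + 1 ≤ (1 / (δ * Real.log 2) + 1) * (n : ℝ) ^ δ := by
    have h8 : (n.primeFactors.card : ℝ) ≤ 1 / (δ * Real.log 2) * (n : ℝ) ^ δ := by
      rw [div_mul_eq_mul_div, le_div_iff₀ (by positivity)]
      rw [le_div_iff₀ hδ] at h5
      nlinarith
    nlinarith
  have h8 : (0 : ℝ) < 1 / (δ * Real.log 2) + 1 := by positivity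
  have h9 : (n : ℝ) = (n : ℝ) ^ (1 - δ) * (n : ℝ) ^ δ := by
    rw [← Real.rpow_add hn0, sub_add_cancel, Real.rpow_one]
  rw [h1]
  refine le_trans ?_ (mul_le_mul_of_nonneg_left h2 hn0.le)
  have hk : (0 : ℝ) < (n.primeFactors.card : ℝ) + 1 := Nat.cast_add_one_pos _
  rw [mul_one_div, le_div_iff₀ hk]
  calc (1 / (δ * Real.log 2) + 1)⁻¹ * (n : ℝ) ^ (1 - δ) * ((n.primeFactors.card : ℝ) + 1)
      ≤ (1 / (δ * Real.log 2) + 1)⁻¹ * (n : ℝ) ^ (1 - δ) * ((1 / (δ * Real.log 2) + 1) * (n : ℝ) ^ δ) :=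
        mul_le_mul_of_nonneg_left h7 (by positivity)
    _ = ((1 / (δ * Real.log 2) + 1)⁻¹ * (1 / (δ * Real.log 2) + 1)) * ((n : ℝ) ^ (1 - δ) * (n : ℝ) ^ δ) := by ring
    _ = (n : ℝ) ^ (1 - δ) * (n : ℝ) ^ δ := by
        rw [inv_mul_cancel₀ h8.ne', one_mul]
    _ = n := h9.symm

/-- powers: the smaller exponent loses -/
theorem exists_large (s t K : ℝ) (hst : s < t) : ∃ X₀ : ℝ, 1 ≤ X₀ ∧ ∀ x : ℝ, X₀ ≤ x → K * x ^ s ≤ x ^ t := by
  have h1 : Filter.Tendsto (fun x : ℝ => x ^ (t - s)) Filter.atTop Filter.atTop :=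
    tendsto_rpow_atTop (by linarith)
  obtain ⟨X₁, hX₁⟩ := (h1.eventually_ge_atTop K).exists_forall_of_atTop
  refine ⟨max X₁ 1, le_max_right _ _, fun x hx => ?_⟩
  have hx1 : X₁ ≤ x := (le_max_left _ _).trans hx
  have hx0 : 0 < x := lt_of_lt_of_le one_pos ((le_max_right _ _).trans hx)
  have h2 := hX₁ x hx1
  have h3 : x ^ t = x ^ (t - s) * x ^ s := by
    rw [← Real.rpow_add hx0, sub_add_cancel]
  rw [h3]
  exact mul_le_mul_of_nonneg_right h2 (Real.rpow_nonneg hx0.le _)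

/-- coprime pairs with sum `n` -/
theorem pairs (δ κ : ℝ) (hδ : 0 < δ) (hκ : κ < 1) : ∃ η : ℝ, 0 < η ∧ ∃ n₀ : ℕ, 3 ≤ n₀ ∧ ∀ n : ℕ, n₀ ≤ n →
    ∃ J : Finset ℕ, (∀ a ∈ J, 0 < a ∧ 2 * a < n ∧ Nat.Coprime a (n - a) ∧ (n : ℝ) ^ κ ≤ a) ∧
      η * (n : ℝ) ^ (1 - δ) ≤ J.card := by
  set δ' : ℝ := min δ ((1 - κ) / 2) with hδ'
  have hδ'0 : 0 < δ' := lt_min hδ (by linarith)
  have hδ'1 : δ' ≤ δ := min_le_left _ _
  have hδ'2 : δ' ≤ (1 - κ) / 2 := min_le_right _ _
  obtain ⟨η, hη, hφ⟩ := totient_ge δ' hδ'0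
  obtain ⟨X₁, hX₁, hX₁'⟩ := exists_large κ (1 - δ') (4 / η) (by linarith)
  refine ⟨η / 4, by positivity, max 3 ⌈X₁⌉₊, le_max_left _ _, fun n hn => ?_⟩
  have hn3 : 3 ≤ n := (le_max_left _ _).trans hn
  have hnX : X₁ ≤ n := (Nat.le_ceil _).trans (by exact_mod_cast (le_max_right _ _).trans hn)
  have hn1 : (1 : ℝ) ≤ n := by exact_mod_cast (by omega : 1 ≤ n)
  have hn0 : (0 : ℝ) < n := by linarith
  classical
  set F := (Finset.range n).filter (fun a => Nat.Coprime n a) with hF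
  have hFc : F.card = Nat.totient n := rfl
  set F1 := F.filter (fun a => 2 * a < n) with hF1
  have hFF : F.card ≤ 2 * F1.card := by
    have h1 : (F.filter (fun a => ¬ 2 * a < n)).card ≤ F1.card := by
      refine Finset.card_le_card_of_injOn (fun a => n - a) ?_ ?_
      · intro a ha
        simp only [hF, Finset.coe_filter, Finset.mem_filter, Finset.mem_range, Set.mem_ofPred_eq] at ha
        simp only [hF1, hF, Finset.coe_filter, Finset.mem_filter, Finset.mem_range, Set.mem_ofPred_eq]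
        obtain ⟨⟨h2, h3⟩, h4⟩ := ha
        have h5 : 0 < a := by
          rcases Nat.eq_zero_or_pos a with h | h
          · subst h
            rw [Nat.coprime_zero_right] at h3
            omega
          · exact h
        have h6 : 2 * a ≠ n := by
          intro h6
          have h7 : a ∣ n := ⟨2, by omega⟩
          have h8 : a = 1 := by
            have := Nat.Coprime.eq_one_of_dvd h3.symm h7
            exact this
          omega
        refine ⟨⟨by omega, ?_⟩, by omega⟩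
        exact (Nat.coprime_self_sub_right (by omega)).2 h3
      · intro a ha b hb hab
        simp only [hF, Finset.coe_filter, Finset.mem_filter, Finset.mem_range, Set.mem_ofPred_eq] at ha hb
        simp only at hab
        omega
    have h2 : (F.filter (fun a => 2 * a < n)).card + (F.filter (fun a => ¬ 2 * a < n)).card = F.card :=
      Finset.card_filter_add_card_filter_not _
    rw [← hF1] at h2
    omega
  refine ⟨F1.filter (fun a : ℕ => (n : ℝ) ^ κ ≤ (a : ℝ)), fun a ha => ?_, ?_⟩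
  · simp only [hF1, hF, Finset.mem_filter, Finset.mem_range] at ha
    obtain ⟨⟨⟨h1, h2⟩, h3⟩, h4⟩ := ha
    have h5 : 0 < a := by
      rcases Nat.eq_zero_or_pos a with h | h
      · subst h
        rw [Nat.coprime_zero_right] at h2
        omega
      · exact h
    exact ⟨h5, h3, (Nat.coprime_sub_self_right (by omega)).2 h2.symm, h4⟩
  · have h1 : F1.card ≤ (F1.filter (fun a : ℕ => (n : ℝ) ^ κ ≤ (a : ℝ))).card +
        (F1.filter (fun a : ℕ => ¬ (n : ℝ) ^ κ ≤ (a : ℝ))).card :=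
      le_of_eq (Finset.card_filter_add_card_filter_not _).symm
    have h2 : ((F1.filter (fun a : ℕ => ¬ (n : ℝ) ^ κ ≤ (a : ℝ))).card : ℝ) ≤ (n : ℝ) ^ κ := by
      have h3 : F1.filter (fun a : ℕ => ¬ (n : ℝ) ^ κ ≤ (a : ℝ)) ⊆ Finset.Icc 1 ⌊(n : ℝ) ^ κ⌋₊ := by
        intro a ha
        simp only [hF1, hF, Finset.mem_filter, Finset.mem_range, not_le] at ha
        obtain ⟨⟨⟨h1, h2⟩, h3⟩, h4⟩ := ha
        rw [Finset.mem_Icc]
        refine ⟨?_, Nat.le_floor h4.le⟩
        rcases Nat.eq_zero_or_pos a with h | h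
        · subst h
          rw [Nat.coprime_zero_right] at h2
          omega
        · exact h
      have h4 := Finset.card_le_card h3
      rw [Nat.card_Icc, Nat.add_sub_cancel] at h4
      have h5 : ((⌊(n : ℝ) ^ κ⌋₊ : ℕ) : ℝ) ≤ (n : ℝ) ^ κ := Nat.floor_le (by positivity)
      have h6 : ((F1.filter (fun a : ℕ => ¬ (n : ℝ) ^ κ ≤ (a : ℝ))).card : ℝ) ≤ ((⌊(n : ℝ) ^ κ⌋₊ : ℕ) : ℝ) := by
        exact_mod_cast h4
      linarith
    have h3 := hφ n (by omega)
    rw [← hFc] at h3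
    have h4 : (F.card : ℝ) ≤ 2 * F1.card := by exact_mod_cast hFF
    have h5 : (F1.card : ℝ) ≤ ((F1.filter (fun a : ℕ => (n : ℝ) ^ κ ≤ (a : ℝ))).card : ℝ) +
        ((F1.filter (fun a : ℕ => ¬ (n : ℝ) ^ κ ≤ (a : ℝ))).card : ℝ) := by exact_mod_cast h1
    have h6 := hX₁' n hnX
    rw [div_mul_eq_mul_div, div_le_iff₀ hη] at h6
    have h7 : (n : ℝ) ^ (1 - δ) ≤ (n : ℝ) ^ (1 - δ') := Real.rpow_le_rpow_of_exponent_le hn1 (by linarith)
    nlinarith

end Pool.Agent.T6.H23.TB.NN
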