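import Pool.Agent.T6.H23.TB.NatPairs

/-! Random sets of natural numbers: representations, counting function, pairs and triples. -/

set_option autoImplicit false

open MeasureTheory ProbabilityTheory Filter Topology

open scoped ENNReal NNReal

namespace Pool.Agent.T6.H23.TB.NN

/-- a random set of natural numbers: `R n` is the event that `n` is chosen; these events are independent, and `n ≥ 1` is
chosen with probability `n ^ (-α)` -/
structure IsRandomSet (α : ℝ) {Ω : Type} [MeasurableSpace Ω] (μ : Measure Ω) (R : ℕ → Set Ω) : Prop where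
  prob : IsProbabilityMeasure μ
  meas : ∀ n, MeasurableSet (R n)
  indep : iIndepSet R μ
  density : ∀ n, n ≠ 0 → μ (R n) = ENNReal.ofReal ((n : ℝ) ^ (-α))

theorem exists_randomSet (α : ℝ) (hα : 0 < α) : ∃ (Ω : Type) (_ : MeasurableSpace Ω) (μ : Measure Ω)
    (R : ℕ → Set Ω), IsRandomSet α μ R := by
  obtain ⟨Ω, m, μ, R, h1, h2, h3, h4⟩ := exists_indep (fun g : ℕ => (g : ℝ) ^ (-α)) (fun g => by
    by_cases hg : g = 0
    · subst hg
      show ((0 : ℕ) : ℝ) ^ (-α) ≤ 1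
      rw [Nat.cast_zero, Real.zero_rpow (by linarith)]
      exact zero_le_one
    · exact Real.rpow_le_one_of_one_le_of_nonpos (by exact_mod_cast Nat.one_le_iff_ne_zero.2 hg) (by linarith))
  exact ⟨Ω, m, μ, R, h1, h2, h3, fun g _ => h4 g⟩

variable {Ω : Type} [MeasurableSpace Ω] {μ : Measure Ω} {R : ℕ → Set Ω} {α : ℝ}

theorem IsRandomSet.real (h : IsRandomSet α μ R) {g : ℕ} (hg : g ≠ 0) : μ.real (R g) = (g : ℝ) ^ (-α) := by
  unfold Measure.real
  rw [h.density g hg, ENNReal.toReal_ofReal (by positivity)]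

theorem IsRandomSet.pair (h : IsRandomSet α μ R) {x y : ℕ} (hxy : x ≠ y) (hx : x ≠ 0) (hy : y ≠ 0) :
    μ (R x ∩ R y) = ENNReal.ofReal ((x : ℝ) ^ (-α) * (y : ℝ) ^ (-α)) := by
  have h1 := (iIndepSet_iff_meas_biInter h.meas).1 h.indep {x, y}
  rw [Finset.prod_pair hxy] at h1
  have h2 : (⋂ i ∈ ({x, y} : Finset ℕ), R i) = R x ∩ R y := by
    ext ω
    simp
  rw [h2] at h1
  rw [h1, h.density x hx, h.density y hy, ENNReal.ofReal_mul (by positivity)]

theorem IsRandomSet.triple (h : IsRandomSet α μ R) {x y z : ℕ} (hxy : x ≠ y) (hxz : x ≠ z) (hyz : y ≠ z)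
    (hx : x ≠ 0) (hy : y ≠ 0) (hz : z ≠ 0) :
    μ (R x ∩ R y ∩ R z) = ENNReal.ofReal ((x : ℝ) ^ (-α) * ((y : ℝ) ^ (-α) * (z : ℝ) ^ (-α))) := by
  classical
  have h1 := (iIndepSet_iff_meas_biInter h.meas).1 h.indep {x, y, z}
  rw [Finset.prod_insert (by simp [hxy, hxz]), Finset.prod_pair hyz] at h1
  have h2 : (⋂ i ∈ ({x, y, z} : Finset ℕ), R i) = R x ∩ R y ∩ R z := by
    ext ω
    simp [and_assoc]
  rw [h2] at h1
  rw [h1, h.density x hx, h.density y hy, h.density z hz, ENNReal.ofReal_mul (by positivity),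
    ENNReal.ofReal_mul (by positivity)]

/-- `exp (- η x ^ θ)` is smaller than every power -/
theorem exp_small (η θ p : ℝ) (hη : 0 < η) (hθ : 0 < θ) : ∃ K : ℝ, ∀ x : ℝ, 1 ≤ x →
    Real.exp (-(η * x ^ θ)) ≤ K * x ^ (-p) := by
  obtain ⟨n, hn⟩ := exists_nat_ge (p / θ)
  refine ⟨n.factorial / η ^ n, fun x hx => ?_⟩
  have hx0 : 0 < x := by linarith
  have hy : 0 < η * x ^ θ := by positivity
  have h1 : (η * x ^ θ) ^ n / n.factorial ≤ Real.exp (η * x ^ θ) := Real.pow_div_factorial_le_exp _ hy.le n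
  have hf : (0 : ℝ) < n.factorial := by exact_mod_cast n.factorial_pos
  have h2 : x ^ p ≤ (x ^ θ) ^ n := by
    rw [← Real.rpow_natCast, ← Real.rpow_mul hx0.le]
    apply Real.rpow_le_rpow_of_exponent_le hx
    rw [div_le_iff₀ hθ] at hn
    linarith
  rw [Real.exp_neg, Real.rpow_neg hx0.le, div_mul_eq_mul_div, ← div_eq_mul_inv, inv_eq_one_div,
    div_div, div_le_div_iff₀ (Real.exp_pos _) (by positivity), one_mul]
  rw [div_le_iff₀ hf, mul_pow] at h1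
  have h3 : η ^ n * x ^ p ≤ η ^ n * (x ^ θ) ^ n := mul_le_mul_of_nonneg_left h2 (by positivity)
  linarith

/-- the natural numbers up to `X` -/
theorem count_nat (n₀ : ℕ) (h₀ : 1 ≤ n₀) (X : ℝ) (hX : 1 ≤ X) : {n : ℕ | n ∈ {n : ℕ | n₀ ≤ n} ∧ (n : ℝ) ≤ X}.Finite ∧
      ({n : ℕ | n ∈ {n : ℕ | n₀ ≤ n} ∧ (n : ℝ) ≤ X}.ncard : ℝ) ≤ 1 * X ^ (1 : ℝ) := by
  have hsub : {n : ℕ | n ∈ {n : ℕ | n₀ ≤ n} ∧ (n : ℝ) ≤ X} ⊆ (Finset.Icc 1 ⌊X⌋₊ : Set ℕ) := by
    rintro n ⟨h1, h2⟩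
    have h1' : n₀ ≤ n := h1
    rw [Finset.mem_coe, Finset.mem_Icc]
    exact ⟨by omega, Nat.le_floor h2⟩
  refine ⟨(Finset.finite_toSet _).subset hsub, ?_⟩
  have h3 := Set.ncard_le_ncard hsub (Finset.finite_toSet _)
  rw [Set.ncard_coe_finset, Nat.card_Icc] at h3
  rw [Real.rpow_one, one_mul]
  have h4 : ((⌊X⌋₊ : ℕ) : ℝ) ≤ X := Nat.floor_le (by linarith)
  have h5 : ({n : ℕ | n ∈ {n : ℕ | n₀ ≤ n} ∧ (n : ℝ) ≤ X}.ncard : ℝ) ≤ ((⌊X⌋₊ : ℕ) : ℝ) := by
    exact_mod_cast (by simpa using h3)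
  linarith

/-- **Representations.** -/
theorem basis (h : IsRandomSet α μ R) (hα : 0 < α) (hα1 : α < 1 / 2) (δ κ : ℝ) (hδ : 0 < δ) (hκ : κ < 1) :
    ∀ᵐ ω ∂μ, ∃ n₀ : ℕ, ∀ n : ℕ, n₀ ≤ n → (n : ℝ) ^ (1 - 2 * α - δ) ≤
      ({a : ℕ | 2 * a < n ∧ ω ∈ R a ∧ ω ∈ R (n - a) ∧ Nat.Coprime a (n - a) ∧ (n : ℝ) ^ κ ≤ a}.ncard : ℝ) := by
  classical
  have := h.prob
  set δ' : ℝ := min δ (1 - 2 * α) / 2 with hδ'
  have hm1 : min δ (1 - 2 * α) ≤ δ := min_le_left _ _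
  have hm2 : min δ (1 - 2 * α) ≤ 1 - 2 * α := min_le_right _ _
  have hm0 : 0 < min δ (1 - 2 * α) := lt_min hδ (by linarith)
  have hδ'0 : 0 < δ' := by positivity
  obtain ⟨η, hη, n₁, hn₁, hJ⟩ := pairs δ' κ hδ'0 hκ
  set θ : ℝ := 1 - 2 * α - δ' with hθ
  have hθ0 : 0 < θ := by
    rw [hθ, hδ']
    linarith
  set η' : ℝ := η / 4 with hη'
  have hη'0 : 0 < η' := by positivity
  choose! J hJ1 hJ3 using hJ
  obtain ⟨K, hK⟩ := exp_small η' θ 2 hη'0 hθ0
  obtain ⟨X₂, hX₂, hX₂'⟩ := exists_large (1 - 2 * α - δ) θ (1 / η') (by rw [hθ, hδ']; linarith)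
  set E : ℕ → Set Ω := fun n => {ω | (((J n).filter (fun a => ω ∈ R a ∩ R (n - a))).card : ℝ) ≤ η' * (n : ℝ) ^ θ} with hE
  have hprob : ∀ n ∈ {n : ℕ | n₁ ≤ n}, μ (E n) ≤ ENNReal.ofReal (K * (n : ℝ) ^ (-(2 : ℝ))) := by
    intro n hn
    have hn' : n₁ ≤ n := hn
    have hc1 : (1 : ℝ) ≤ n := by exact_mod_cast (by omega : 1 ≤ n)
    have hc0 : (0 : ℝ) < n := by linarith
    have hind : iIndepSet (fun a : J n => R a ∩ R (n - a)) μ := by
      refine pairs_indep h.meas h.indep (fun a : J n => (a : ℕ)) (fun a : J n => n - a) Subtype.val_injective ?_ ?_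
      · intro a b hab
        obtain ⟨_, ha2, _⟩ := hJ1 n hn a a.2
        obtain ⟨_, hb2, _⟩ := hJ1 n hn b b.2
        apply Subtype.ext
        simp only at hab
        omega
      · intro a b
        obtain ⟨_, ha2, _⟩ := hJ1 n hn a a.2
        obtain ⟨_, hb2, _⟩ := hJ1 n hn b b.2
        omega
    have hlt := lower_tail (E := fun a : J n => R a ∩ R (n - a)) (fun a => (h.meas _).inter (h.meas _)) hind
      Finset.univ (η' * (n : ℝ) ^ θ)
    have hset : E n ⊆ {ω | ((Finset.univ.filter (fun a : J n => ω ∈ R a ∩ R (n - a))).card : ℝ) ≤ η' * (n : ℝ) ^ θ} := by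
      intro ω hω
      have h1 : (Finset.univ.filter (fun a : J n => ω ∈ R a ∩ R (n - a))).card ≤
          ((J n).filter (fun a => ω ∈ R a ∩ R (n - a))).card := by
        refine Finset.card_le_card_of_injOn (fun a : J n => (a : ℕ)) ?_ Subtype.val_injective.injOn
        intro a ha
        rw [Finset.mem_coe, Finset.mem_filter] at ha
        rw [Finset.mem_coe, Finset.mem_filter]
        exact ⟨a.2, ha.2⟩
      have h2 : ((Finset.univ.filter (fun a : J n => ω ∈ R a ∩ R (n - a))).card : ℝ) ≤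
          (((J n).filter (fun a => ω ∈ R a ∩ R (n - a))).card : ℝ) := by exact_mod_cast h1
      exact h2.trans hω
    have hsum : 4 * (η' * (n : ℝ) ^ θ) ≤ ∑ a : J n, μ.real (R a ∩ R (n - a)) := by
      have hone : ∀ a : J n, (n : ℝ) ^ (-(2 * α)) ≤ μ.real (R a ∩ R (n - a)) := by
        intro a
        obtain ⟨ha0, ha1, _, _⟩ := hJ1 n hn a a.2
        have hne : (a : ℕ) ≠ n - a := by omega
        unfold Measure.real
        rw [h.pair hne (by omega) (by omega), ENNReal.toReal_ofReal (by positivity)]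
        have e1 : (n : ℝ) ^ (-α) ≤ ((a : ℕ) : ℝ) ^ (-α) :=
          Real.rpow_le_rpow_of_nonpos (by exact_mod_cast ha0) (by exact_mod_cast (by omega : (a : ℕ) ≤ n)) (by linarith)
        have e2 : (n : ℝ) ^ (-α) ≤ ((n - a : ℕ) : ℝ) ^ (-α) :=
          Real.rpow_le_rpow_of_nonpos (by exact_mod_cast (by omega : 0 < n - (a : ℕ)))
            (by exact_mod_cast (by omega : n - (a : ℕ) ≤ n)) (by linarith)
        rw [show -(2 * α) = -α + -α by ring, Real.rpow_add hc0]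
        exact mul_le_mul e1 e2 (by positivity) (by positivity)
      calc 4 * (η' * (n : ℝ) ^ θ) = (η * (n : ℝ) ^ (1 - δ')) * ((n : ℝ) ^ (-(2 * α))) := by
            rw [hη', hθ, show 1 - 2 * α - δ' = (1 - δ') + -(2 * α) by ring, Real.rpow_add hc0]
            ring
        _ ≤ ((J n).card : ℝ) * ((n : ℝ) ^ (-(2 * α))) :=
            mul_le_mul_of_nonneg_right (hJ3 n hn) (by positivity)
        _ = ∑ _a : J n, ((n : ℝ) ^ (-(2 * α))) := by
            rw [Finset.sum_const, nsmul_eq_mul, Finset.card_univ, Fintype.card_coe]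
        _ ≤ ∑ a : J n, μ.real (R a ∩ R (n - a)) := Finset.sum_le_sum (fun a _ => hone a)
    refine (measure_mono hset).trans (hlt.trans (ENNReal.ofReal_le_ofReal ?_))
    refine le_trans (Real.exp_le_exp.2 ?_) (hK n hc1)
    linarith
  have hae := ae_finite (μ := μ) {n : ℕ | n₁ ≤ n} (fun n => (n : ℝ)) 1 K 1 2 (by norm_num) (by norm_num)
    (fun n hn => by
      have hn' : n₁ ≤ n := hn
      show (1 : ℝ) ≤ n
      exact_mod_cast (by omega : 1 ≤ n)) (count_nat n₁ (by omega)) E hprob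
  filter_upwards [hae] with ω hω
  obtain ⟨M, hM⟩ : ∃ M : ℕ, ∀ n ∈ {t | t ∈ {n : ℕ | n₁ ≤ n} ∧ ω ∈ E t}, n ≤ M := by
    obtain ⟨M, hM⟩ := hω.bddAbove
    exact ⟨M, fun n hn => hM hn⟩
  refine ⟨max (max n₁ ⌈X₂⌉₊) (M + 1), fun n hn => ?_⟩
  have hc1 : n₁ ≤ n := ((le_max_left _ _).trans (le_max_left _ _)).trans hn
  have hc2 : X₂ ≤ n := (Nat.le_ceil _).trans
    (by exact_mod_cast ((le_max_right _ _).trans (le_max_left _ _)).trans hn)
  have hc3 : M + 1 ≤ n := (le_max_right _ _).trans hn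
  have hnot : ω ∉ E n := by
    intro hE'
    have := hM n ⟨hc1, hE'⟩
    omega
  simp only [hE, Set.mem_ofPred_eq, not_le] at hnot
  have h5 := hX₂' _ hc2
  rw [one_div, ← div_eq_inv_mul, div_le_iff₀ hη'0] at h5
  have h6 : (((J n).filter (fun a => ω ∈ R a ∩ R (n - a))).card : ℝ) ≤
      ({a : ℕ | 2 * a < n ∧ ω ∈ R a ∧ ω ∈ R (n - a) ∧ Nat.Coprime a (n - a) ∧ (n : ℝ) ^ κ ≤ a}.ncard : ℝ) := by
    have hsub : (((J n).filter (fun a => ω ∈ R a ∩ R (n - a)) : Finset ℕ) : Set ℕ) ⊆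
        {a : ℕ | 2 * a < n ∧ ω ∈ R a ∧ ω ∈ R (n - a) ∧ Nat.Coprime a (n - a) ∧ (n : ℝ) ^ κ ≤ a} := by
      intro a ha
      rw [Finset.mem_coe, Finset.mem_filter] at ha
      obtain ⟨_, h3, h4, h7⟩ := hJ1 n hc1 a ha.1
      exact ⟨h3, ha.2.1, ha.2.2, h4, h7⟩
    have hfin : {a : ℕ | 2 * a < n ∧ ω ∈ R a ∧ ω ∈ R (n - a) ∧ Nat.Coprime a (n - a) ∧ (n : ℝ) ^ κ ≤ a}.Finite :=
      (Finset.finite_toSet (Finset.range n)).subset (fun a ha => by
        have := ha.1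
        rw [Finset.mem_coe, Finset.mem_range]
        omega)
    have := Set.ncard_le_ncard hsub hfin
    rw [Set.ncard_coe_finset] at this
    exact_mod_cast this
  linarith

theorem finite_le (P : ℕ → Prop) (T : ℝ) : {g : ℕ | P g ∧ (g : ℝ) ≤ T}.Finite := by
  refine Set.Finite.subset (Finset.finite_toSet (Finset.range (⌊T⌋₊ + 1))) ?_
  rintro g ⟨_, h2⟩
  rw [Finset.mem_coe, Finset.mem_range]
  exact Nat.lt_succ_of_le (Nat.le_floor h2)

/-- upper bound for the counting function -/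
theorem size_upper (h : IsRandomSet α μ R) (hα2 : α < 1) (δ : ℝ) (hδ : 0 < δ) :
    ∀ᵐ ω ∂μ, ∃ C : ℝ, ∀ T : ℝ, 1 ≤ T →
      ({g : ℕ | ω ∈ R g ∧ (g : ℝ) ≤ T}.ncard : ℝ) ≤ C * T ^ (1 - α + δ) := by
  classical
  have := h.prob
  set S : Set ℕ := {n : ℕ | 1 ≤ n} with hS
  set w : ℕ → ℝ≥0∞ := fun g => ENNReal.ofReal ((g : ℝ) ^ (-(1 - α + δ))) with hw
  set f : Ω → ℝ≥0∞ := fun ω => ∑' g : S, (R g).indicator (fun _ => w g) ω with hf
  have hfm : Measurable f := Measurable.tsum (fun g => measurable_const.indicator (h.meas g))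
  have hint : ∫⁻ ω, f ω ∂μ ≠ ∞ := by
    have h0 : ∫⁻ ω, f ω ∂μ = ∑' g : S, ∫⁻ ω, (R (g : ℕ)).indicator (fun _ => w g) ω ∂μ :=
      lintegral_tsum (fun g : S => (measurable_const.indicator (h.meas (g : ℕ))).aemeasurable)
    rw [h0]
    have h1 : ∀ g : S, ∫⁻ ω, (R g).indicator (fun _ => w g) ω ∂μ = ENNReal.ofReal (((g : ℕ) : ℝ) ^ (-(1 + δ))) := by
      intro g
      have hg1 : 1 ≤ (g : ℕ) := g.2
      have hg0 : (0 : ℝ) < ((g : ℕ) : ℝ) := by exact_mod_cast (by omega : 0 < (g : ℕ))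
      rw [lintegral_indicator (h.meas g), lintegral_const, Measure.restrict_apply MeasurableSet.univ, Set.univ_inter,
        h.density g (by omega), hw]
      simp only
      rw [← ENNReal.ofReal_mul (by positivity), ← Real.rpow_add hg0]
      congr 2
      ring
    simp only [h1]
    exact tsum_ne_top S (fun g => (g : ℝ)) 1 1 (1 + δ) (by linarith) (by linarith) (fun t ht => by
      have : 1 ≤ t := ht
      show (1 : ℝ) ≤ t
      exact_mod_cast this)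
      (count_nat 1 le_rfl)
  filter_upwards [ae_lt_top hfm hint] with ω hω
  refine ⟨(f ω).toReal + 1, fun T hT => ?_⟩
  have hT0 : 0 < T := by linarith
  have hTp : 0 < T ^ (1 - α + δ) := Real.rpow_pos_of_pos hT0 _
  have hT1 : 1 ≤ T ^ (1 - α + δ) := Real.one_le_rpow hT (by linarith)
  have hfin := finite_le (fun g => ω ∈ R g) T
  set P : Finset ℕ := hfin.toFinset.filter (fun g => g ≠ 0) with hP
  have hcard : {g : ℕ | ω ∈ R g ∧ (g : ℝ) ≤ T}.ncard ≤ P.card + 1 := by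
    rw [Set.ncard_eq_toFinset_card _ hfin]
    have hsub : hfin.toFinset ⊆ insert 0 P := by
      intro g hg
      rw [Finset.mem_insert, hP, Finset.mem_filter]
      by_cases h0 : g = 0
      · exact Or.inl h0
      · exact Or.inr ⟨hg, h0⟩
    exact (Finset.card_le_card hsub).trans (Finset.card_insert_le _ _)
  have hPm : ∀ g ∈ P, g ∈ S ∧ ω ∈ R g ∧ (g : ℝ) ≤ T := by
    intro g hg
    rw [hP, Finset.mem_filter, Set.Finite.mem_toFinset] at hg
    exact ⟨Nat.one_le_iff_ne_zero.2 hg.2, hg.1.1, hg.1.2⟩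
  have hsum : (P.card : ℝ≥0∞) * ENNReal.ofReal (T ^ (-(1 - α + δ))) ≤ f ω := by
    have h1 : ∑ g ∈ P.attach, (R (g : ℕ)).indicator (fun _ => w g) ω ≤ f ω := by
      have hinj : Function.Injective (fun g : P => (⟨g.1, (hPm g.1 g.2).1⟩ : S)) := by
        intro a b hab
        exact Subtype.ext (congrArg (fun s : S => (s : ℕ)) hab)
      have h2 := ENNReal.sum_le_tsum (f := fun s : S => (R (s : ℕ)).indicator (fun _ => w s) ω)
        (P.attach.map ⟨_, hinj⟩)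
      rw [Finset.sum_map] at h2
      exact h2
    refine le_trans ?_ h1
    rw [← Finset.card_attach, ← nsmul_eq_mul, ← Finset.sum_const]
    refine Finset.sum_le_sum (fun g _ => ?_)
    obtain ⟨hg1, hg2, hg3⟩ := hPm g.1 g.2
    rw [Set.indicator_of_mem hg2, hw]
    apply ENNReal.ofReal_le_ofReal
    have hg1' : 1 ≤ (g : ℕ) := hg1
    exact Real.rpow_le_rpow_of_nonpos (by exact_mod_cast (by omega : 0 < (g : ℕ))) hg3 (by linarith)
  have hreal : (P.card : ℝ) * T ^ (-(1 - α + δ)) ≤ (f ω).toReal := by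
    have h1 := ENNReal.toReal_mono hω.ne hsum
    rw [ENNReal.toReal_mul, ENNReal.toReal_natCast, ENNReal.toReal_ofReal (Real.rpow_nonneg hT0.le _)] at h1
    exact h1
  rw [Real.rpow_neg hT0.le, ← div_eq_mul_inv, div_le_iff₀ hTp] at hreal
  have hcard' : ({g : ℕ | ω ∈ R g ∧ (g : ℝ) ≤ T}.ncard : ℝ) ≤ P.card + 1 := by exact_mod_cast hcard
  linarith

/-- lower bound for the counting function -/
theorem size_lower (h : IsRandomSet α μ R) (hα : 0 < α) (hα2 : α < 1) (δ : ℝ) (hδ : 0 < δ) :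
    ∀ᵐ ω ∂μ, ∃ T₀ : ℝ, ∀ T : ℝ, T₀ ≤ T →
      T ^ (1 - α - δ) ≤ ({g : ℕ | ω ∈ R g ∧ (g : ℝ) ≤ T}.ncard : ℝ) := by
  classical
  have := h.prob
  set θ : ℝ := 1 - α with hθ
  have hθ0 : 0 < θ := by rw [hθ]; linarith
  obtain ⟨K, hK⟩ := exp_small (1 / 4) θ 2 (by norm_num) hθ0
  set E : ℕ → Set Ω := fun n => {ω | (((Finset.Icc 1 n).filter (fun g => ω ∈ R g)).card : ℝ) ≤ 1 / 4 * (n : ℝ) ^ θ} with hE
  have hprob : ∀ n ∈ {n : ℕ | 1 ≤ n}, μ (E n) ≤ ENNReal.ofReal (K * (n : ℝ) ^ (-(2 : ℝ))) := by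
    intro n hn
    have hn1 : 1 ≤ n := hn
    have hn' : (1 : ℝ) ≤ n := by exact_mod_cast hn1
    have hn0 : (0 : ℝ) < n := by linarith
    have hlt := lower_tail h.meas h.indep (Finset.Icc 1 n) (1 / 4 * (n : ℝ) ^ θ)
    refine hlt.trans (ENNReal.ofReal_le_ofReal (le_trans (Real.exp_le_exp.2 ?_) (hK n (by linarith))))
    have hsum : (n : ℝ) * (n : ℝ) ^ (-α) ≤ ∑ g ∈ Finset.Icc 1 n, μ.real (R g) := by
      calc (n : ℝ) * (n : ℝ) ^ (-α) = ∑ _g ∈ Finset.Icc 1 n, (n : ℝ) ^ (-α) := by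
            rw [Finset.sum_const, nsmul_eq_mul, Nat.card_Icc, Nat.add_sub_cancel]
        _ ≤ ∑ g ∈ Finset.Icc 1 n, μ.real (R g) := by
            refine Finset.sum_le_sum (fun g hg => ?_)
            rw [Finset.mem_Icc] at hg
            rw [h.real (by omega)]
            refine Real.rpow_le_rpow_of_nonpos (by exact_mod_cast (by omega : 0 < g)) ?_ (by linarith)
            exact_mod_cast hg.2
    have h5 : (n : ℝ) * (n : ℝ) ^ (-α) = (n : ℝ) ^ θ := by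
      rw [hθ, show (1 : ℝ) - α = 1 + -α by ring, Real.rpow_add hn0, Real.rpow_one]
    rw [h5] at hsum
    linarith
  have hae := ae_finite (μ := μ) {n : ℕ | 1 ≤ n} (fun n => (n : ℝ)) 1 K 1 2 (by norm_num) (by norm_num)
    (fun n hn => by
      have hn' : 1 ≤ n := hn
      show (1 : ℝ) ≤ n
      exact_mod_cast hn') (count_nat 1 le_rfl) E hprob
  obtain ⟨X₂, hX₂, hX₂'⟩ := exists_large (1 - α - δ) θ (4 * 2 ^ θ) (by rw [hθ]; linarith)
  filter_upwards [hae] with ω hω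
  obtain ⟨M, hM⟩ : ∃ M : ℕ, ∀ n ∈ {t | t ∈ {n : ℕ | 1 ≤ n} ∧ ω ∈ E t}, n ≤ M := by
    obtain ⟨M, hM⟩ := hω.bddAbove
    exact ⟨M, fun n hn => hM hn⟩
  refine ⟨max X₂ (max ((M : ℝ) + 1) 10), fun T hT => ?_⟩
  have hT1 : X₂ ≤ T := (le_max_left _ _).trans hT
  have hT2 : (M : ℝ) + 1 ≤ T := ((le_max_left _ _).trans (le_max_right _ _)).trans hT
  have hT3 : 10 ≤ T := ((le_max_right _ _).trans (le_max_right _ _)).trans hT
  set n := ⌊T⌋₊ with hn
  have hn1 : M + 1 ≤ n := Nat.le_floor (by push_cast; exact hT2)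
  have hn2 : 10 ≤ n := Nat.le_floor (by push_cast; exact hT3)
  have hnT : (n : ℝ) ≤ T := Nat.floor_le (by linarith)
  have hnT' : T / 2 ≤ n := by
    have := Nat.lt_floor_add_one T
    rw [← hn] at this
    linarith
  have hnot : ω ∉ E n := by
    intro hE'
    have := hM n ⟨show 1 ≤ n by omega, hE'⟩
    omega
  simp only [hE, Set.mem_ofPred_eq, not_le] at hnot
  have h5 := hX₂' _ hT1
  have h6 : (T / 2) ^ θ ≤ (n : ℝ) ^ θ := Real.rpow_le_rpow (by linarith) hnT' hθ0.le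
  rw [Real.div_rpow (by linarith) (by norm_num), div_le_iff₀ (by positivity)] at h6
  have h7 : (((Finset.Icc 1 n).filter (fun g => ω ∈ R g)).card : ℝ) ≤ ({g : ℕ | ω ∈ R g ∧ (g : ℝ) ≤ T}.ncard : ℝ) := by
    have hsub : (((Finset.Icc 1 n).filter (fun g => ω ∈ R g) : Finset ℕ) : Set ℕ) ⊆
        {g : ℕ | ω ∈ R g ∧ (g : ℝ) ≤ T} := by
      intro g hg
      rw [Finset.mem_coe, Finset.mem_filter, Finset.mem_Icc] at hg
      refine ⟨hg.2, le_trans ?_ hnT⟩
      exact_mod_cast hg.1.2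
    have := Set.ncard_le_ncard hsub (finite_le _ T)
    rw [Set.ncard_coe_finset] at this
    exact_mod_cast this
  have h2θ : (0 : ℝ) < 2 ^ θ := by positivity
  have h8 : 4 * 2 ^ θ * T ^ (1 - α - δ) ≤ (n : ℝ) ^ θ * 2 ^ θ := h5.trans h6
  have h9 : 4 * T ^ (1 - α - δ) ≤ (n : ℝ) ^ θ := by
    refine le_of_mul_le_mul_right ?_ h2θ
    linarith
  linarith

end Pool.Agent.T6.H23.TB.NN
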