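import Pool.Agent.T6.H23.TB.Cop

/-! Disjoint pairs of coprime Gaussian integers with sum `c`, none of them small. -/

set_option autoImplicit false

open Finset

namespace Pool.Agent.T6.H23.TB

open Pool.Agent.W17.AB

noncomputable local instance instDec2 : DecidableEq Gi := Classical.decEq _

/-- the number of small Gaussian integers -/
theorem few_small (P : Finset Gi) (X : ℝ) (hP : ∀ x ∈ P, x ≠ 0 ∧ ‖φ x‖ ≤ X) :
    (P.card : ℝ) ≤ 9 * X ^ 2 := by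
  have h1 : P ⊆ bx ⌊X ^ 2⌋₊ := by
    intro x hx
    obtain ⟨h2, h3⟩ := hP x hx
    rw [mem_bx]
    refine ⟨h2, Nat.le_floor ?_⟩
    rw [nm_real]
    exact pow_le_pow_left₀ (norm_nonneg _) h3 2
  have h2 : (P.card : ℝ) ≤ ((bx ⌊X ^ 2⌋₊).card : ℝ) := by exact_mod_cast card_le_card h1
  have h3 := card_bx_real ⌊X ^ 2⌋₊
  have h4 : ((⌊X ^ 2⌋₊ : ℕ) : ℝ) ≤ X ^ 2 := Nat.floor_le (by positivity)
  linarith

/-- powers: the smaller exponent loses -/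
theorem exists_large (s t K : ℝ) (hst : s < t) : ∃ X₀ : ℝ, 1 ≤ X₀ ∧ ∀ x : ℝ, X₀ ≤ x → K * x ^ s ≤ x ^ t := by
  have h1 : Filter.Tendsto (fun x : ℝ => x ^ (t - s)) Filter.atTop Filter.atTop :=
    tendsto_rpow_atTop (by linarith)
  obtain ⟨X₁, hX₁⟩ := (h1.eventually_ge_atTop K).exists_forall_of_atTop
  refine ⟨max X₁ 1, le_max_right _ _, fun x hx => ?_⟩
  have hx1 : X₁ ≤ x := (le_max_left _ _).trans hx
  have hx0 : 0 < x := lt_of_lt_of_le one_pos ((le_max_right _ _).trans hx)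
  have h2 := hX₁ x hx1
  have h3 : x ^ t = x ^ (t - s) * x ^ s := by
    rw [← Real.rpow_add hx0, sub_add_cancel]
  rw [h3]
  exact mul_le_mul_of_nonneg_right h2 (Real.rpow_nonneg hx0.le _)

/-- disjoint pairs of coprime elements with sum `c` -/
theorem pairs (δ κ : ℝ) (hδ : 0 < δ) (hκ : κ < 1) : ∃ η : ℝ, 0 < η ∧ ∃ X₀ : ℝ, 1 ≤ X₀ ∧ ∀ c : Gi, X₀ ≤ ‖φ c‖ →
    ∃ J : Finset Gi, (∀ a ∈ J, a ≠ 0 ∧ c - a ≠ 0 ∧ IsCoprime a (c - a) ∧ ‖φ a‖ ≤ ‖φ c‖ ∧ ‖φ (c - a)‖ ≤ 2 * ‖φ c‖ ∧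
      ‖φ c‖ ^ κ ≤ ‖φ a‖ ∧ ‖φ c‖ ^ κ ≤ ‖φ (c - a)‖) ∧ (∀ a ∈ J, ∀ b ∈ J, a ≠ c - b) ∧
      η * ‖φ c‖ ^ (2 - δ) ≤ J.card := by
  set δ' : ℝ := min δ (1 - κ) with hδ'
  have hδ'0 : 0 < δ' := lt_min hδ (by linarith)
  have hδ'1 : δ' ≤ δ := min_le_left _ _
  have hδ'2 : δ' ≤ 1 - κ := min_le_right _ _
  obtain ⟨η, hη, hF⟩ := many_coprime δ' hδ'0
  obtain ⟨X₁, hX₁, hX₁'⟩ := exists_large (2 * κ) (2 - δ') (36 / η) (by linarith)
  refine ⟨η / 4, by positivity, max X₁ 3, le_max_of_le_left hX₁, fun c hcX => ?_⟩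
  have hc3 : 3 ≤ ‖φ c‖ := (le_max_right _ _).trans hcX
  have hcX₁ : X₁ ≤ ‖φ c‖ := (le_max_left _ _).trans hcX
  have hcpos : 0 < ‖φ c‖ := by linarith
  have hc0 : c ≠ 0 := by
    rintro rfl
    simp at hcpos
  have hnc : (9 : ℝ) ≤ nm c := by
    rw [nm_real]
    nlinarith
  obtain ⟨F, hF1, hF2⟩ := hF c hc0
  have hFa : ∀ a ∈ F, a ≠ 0 ∧ c - a ≠ 0 ∧ IsCoprime a (c - a) ∧ ‖φ a‖ ≤ ‖φ c‖ ∧ ‖φ (c - a)‖ ≤ 2 * ‖φ c‖ ∧
      a ≠ c - a := by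
    intro a ha
    obtain ⟨h1, h2⟩ := hF1 a ha
    have h3 : a ≠ 0 := by
      rintro rfl
      rw [isCoprime_zero_left] at h1
      have := nm_unit h1
      rw [this] at hnc
      norm_num at hnc
    have h4 : c - a ≠ 0 := by
      intro h
      have : c = a := sub_eq_zero.1 h
      rw [this] at h2
      exact lt_irrefl _ h2
    have h5 : ‖φ a‖ ≤ ‖φ c‖ := by
      have h6 : ‖φ a‖ ^ 2 ≤ ‖φ c‖ ^ 2 := by
        rw [← nm_real, ← nm_real]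
        exact_mod_cast h2.le
      exact le_of_sq_le_sq h6 hcpos.le
    refine ⟨h3, h4, ?_, h5, ?_, ?_⟩
    · obtain ⟨u, v, huv⟩ := h1
      exact ⟨u + v, v, by linear_combination huv⟩
    · rw [φ_sub]
      calc ‖φ c - φ a‖ ≤ ‖φ c‖ + ‖φ a‖ := norm_sub_le _ _
        _ ≤ 2 * ‖φ c‖ := by linarith
    · intro h
      have h6 : a ∣ c := ⟨2, by linear_combination -h⟩
      have h7 := nm_unit (h1.isUnit_of_dvd' dvd_rfl h6)
      have h8 : c = 2 * a := by linear_combination -h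
      have h9 : nm c = 4 := by
        rw [h8, nm_mul, h7]
        rfl
      rw [h9] at hnc
      norm_num at hnc
  set F1 := F.filter (fun a => ‖φ c‖ ^ κ ≤ ‖φ a‖ ∧ ‖φ c‖ ^ κ ≤ ‖φ (c - a)‖) with hF1d
  have hκ0 : 0 ≤ ‖φ c‖ ^ κ := Real.rpow_nonneg hcpos.le _
  have hsq : (‖φ c‖ ^ κ) ^ 2 = ‖φ c‖ ^ (2 * κ) := by
    rw [← Real.rpow_natCast, ← Real.rpow_mul hcpos.le]
    congr 1
    push_cast
    ring
  have hcov : F ⊆ F1 ∪ (F.filter (fun a => ‖φ a‖ ≤ ‖φ c‖ ^ κ) ∪ F.filter (fun a => ‖φ (c - a)‖ ≤ ‖φ c‖ ^ κ)) := by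
    intro a ha
    simp only [mem_union, mem_filter, hF1d, ha, true_and]
    rcases le_total (‖φ a‖) (‖φ c‖ ^ κ) with h | h
    · exact Or.inr (Or.inl h)
    · rcases le_total (‖φ (c - a)‖) (‖φ c‖ ^ κ) with h' | h'
      · exact Or.inr (Or.inr h')
      · exact Or.inl ⟨h, h'⟩
  have hb1 : ((F.filter (fun a => ‖φ a‖ ≤ ‖φ c‖ ^ κ)).card : ℝ) ≤ 9 * ‖φ c‖ ^ (2 * κ) := by
    rw [← hsq]
    refine few_small _ _ (fun x hx => ?_)
    rw [mem_filter] at hx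
    exact ⟨(hFa x hx.1).1, hx.2⟩
  have hb2 : ((F.filter (fun a => ‖φ (c - a)‖ ≤ ‖φ c‖ ^ κ)).card : ℝ) ≤ 9 * ‖φ c‖ ^ (2 * κ) := by
    rw [← hsq, ← card_image_of_injective _ (f := fun a => c - a) (fun a b hab => by simpa using hab)]
    refine few_small _ _ (fun x hx => ?_)
    obtain ⟨a, ha, rfl⟩ := mem_image.1 hx
    rw [mem_filter] at ha
    exact ⟨(hFa a ha.1).2.1, ha.2⟩
  have hF1c : η / 2 * ‖φ c‖ ^ (2 - δ') ≤ F1.card := by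
    have h1 := (card_le_card hcov).trans ((card_union_le _ _).trans
      (Nat.add_le_add_left (card_union_le _ _) _))
    have h2 : (F.card : ℝ) ≤ F1.card + ((F.filter (fun a => ‖φ a‖ ≤ ‖φ c‖ ^ κ)).card +
        (F.filter (fun a => ‖φ (c - a)‖ ≤ ‖φ c‖ ^ κ)).card) := by exact_mod_cast h1
    have h3 := hX₁' _ hcX₁
    rw [div_mul_eq_mul_div, div_le_iff₀ hη] at h3
    linarith
  set T : Gi → Prop := fun a => 2 * a.re < c.re ∨ (2 * a.re = c.re ∧ 2 * a.im < c.im) with hT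
  have hTT : ∀ a, ¬ (T a ∧ T (c - a)) := by
    rintro a ⟨h1, h2⟩
    simp only [hT, Zsqrtd.re_sub, Zsqrtd.im_sub] at h1 h2
    omega
  have hTor : ∀ a, a ≠ c - a → T a ∨ T (c - a) := by
    intro a ha
    simp only [hT, Zsqrtd.re_sub, Zsqrtd.im_sub]
    by_contra hcon
    apply ha
    apply Zsqrtd.ext
    · simp only [Zsqrtd.re_sub]
      omega
    · simp only [Zsqrtd.im_sub]
      omega
  have hfin : ∀ P : Gi → Prop, [DecidablePred P] → (∀ a b, P a → P b → a ≠ c - b) → (F1.card : ℝ) / 2 ≤ (F1.filter P).card →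
      ∃ J : Finset Gi, (∀ a ∈ J, a ≠ 0 ∧ c - a ≠ 0 ∧ IsCoprime a (c - a) ∧ ‖φ a‖ ≤ ‖φ c‖ ∧ ‖φ (c - a)‖ ≤ 2 * ‖φ c‖ ∧
      ‖φ c‖ ^ κ ≤ ‖φ a‖ ∧ ‖φ c‖ ^ κ ≤ ‖φ (c - a)‖) ∧ (∀ a ∈ J, ∀ b ∈ J, a ≠ c - b) ∧
      η / 4 * ‖φ c‖ ^ (2 - δ) ≤ J.card := by
    intro P _ hP hc'
    refine ⟨F1.filter P, fun a ha => ?_, fun a ha b hb => hP a b (mem_filter.1 ha).2 (mem_filter.1 hb).2, ?_⟩
    · rw [mem_filter, hF1d, mem_filter] at ha
      obtain ⟨⟨ha1, ha2, ha3⟩, -⟩ := ha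
      obtain ⟨h1, h2, h3, h4, h5, -⟩ := hFa a ha1
      exact ⟨h1, h2, h3, h4, h5, ha2, ha3⟩
    · have h1 : ‖φ c‖ ^ (2 - δ) ≤ ‖φ c‖ ^ (2 - δ') :=
        Real.rpow_le_rpow_of_exponent_le (by linarith) (by linarith)
      nlinarith
  classical
  have hsplit : F1.card ≤ (F1.filter T).card + (F1.filter (fun a => T (c - a))).card := by
    refine le_trans (card_le_card ?_) (card_union_le _ _)
    intro a ha
    have ha' : a ∈ F := (mem_filter.1 ha).1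
    rcases hTor a (hFa a ha').2.2.2.2.2 with h | h
    · exact mem_union_left _ (mem_filter.2 ⟨ha, h⟩)
    · exact mem_union_right _ (mem_filter.2 ⟨ha, h⟩)
  have hsplit' : (F1.card : ℝ) ≤ (F1.filter T).card + (F1.filter (fun a => T (c - a))).card := by
    exact_mod_cast hsplit
  rcases le_total ((F1.card : ℝ) / 2) ((F1.filter T).card) with h | h
  · refine hfin T (fun a b ha hb hab => ?_) h
    have : c - a = b := by rw [hab]; ring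
    exact hTT a ⟨ha, this ▸ hb⟩
  · refine hfin (fun a => T (c - a)) (fun a b ha hb hab => ?_) (by linarith)
    have h1 : c - a = b := by rw [hab]; ring
    simp only [h1] at ha
    exact hTT b ⟨ha, hb⟩

end Pool.Agent.T6.H23.TB
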