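import Mathlib

/-! Independent events with given probabilities, the lower tail of their number, and a Borel-Cantelli lemma for thin
families of events. -/

set_option autoImplicit false

open MeasureTheory ProbabilityTheory Filter Topology

open scoped ENNReal NNReal

namespace Pool.Agent.T6.H23.TB

/-- independent events with given probabilities exist -/
theorem exists_indep {ι : Type} (p : ι → ℝ) (h1 : ∀ i, p i ≤ 1) :
    ∃ (Ω : Type) (_ : MeasurableSpace Ω) (μ : Measure Ω) (R : ι → Set Ω), IsProbabilityMeasure μ ∧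
      (∀ i, MeasurableSet (R i)) ∧ iIndepSet R μ ∧ ∀ i, μ (R i) = ENNReal.ofReal (p i) := by
  obtain ⟨ν, hν⟩ : ∃ ν : Measure ℝ, ν = volume.restrict (Set.Icc (0 : ℝ) 1) := ⟨_, rfl⟩
  have hνp : IsProbabilityMeasure ν := ⟨by simp [hν]⟩
  have hms : ∀ i, MeasurableSet {ω : ι → ℝ | ω i ∈ Set.Icc 0 (p i)} := fun i =>
    (measurable_pi_apply i) measurableSet_Icc
  refine ⟨ι → ℝ, inferInstance, Measure.infinitePi (fun _ : ι => ν), fun i => {ω | ω i ∈ Set.Icc 0 (p i)},
    inferInstance, hms, ?_, fun i => ?_⟩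
  · have h := iIndepFun_infinitePi (P := fun _ : ι => ν) (X := fun _ x => x) (fun _ => measurable_id)
    rw [iIndepSet_iff_meas_biInter hms]
    intro s
    exact h.measure_inter_preimage_eq_mul s (fun i _ => measurableSet_Icc)
  · have h : Measure.map (fun ω : ι → ℝ => ω i) (Measure.infinitePi (fun _ : ι => ν)) = ν :=
      Measure.infinitePi_map_eval (fun _ : ι => ν) i
    have h3 : (Measure.infinitePi (fun _ : ι => ν)) {ω | ω i ∈ Set.Icc 0 (p i)} = ν (Set.Icc 0 (p i)) := by
      conv_rhs => rw [← h, Measure.map_apply (measurable_pi_apply i) measurableSet_Icc]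
      rfl
    rw [h3, hν]
    rw [Measure.restrict_apply measurableSet_Icc, Set.Icc_inter_Icc]
    simp [h1 i]

variable {Ω : Type*} [MeasurableSpace Ω] {μ : Measure Ω}

/-- the lower tail of the number of the independent events that occur -/
theorem lower_tail [IsProbabilityMeasure μ] {κ : Type*} {E : κ → Set Ω} [∀ ω, DecidablePred (fun k => ω ∈ E k)]
    (hm : ∀ k, MeasurableSet (E k))
    (hE : iIndepSet E μ) (J : Finset κ) (m : ℝ) :
    μ {ω | ((J.filter (fun k => ω ∈ E k)).card : ℝ) ≤ m} ≤
      ENNReal.ofReal (Real.exp (m - (∑ k ∈ J, μ.real (E k)) / 2)) := by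
  have hX : iIndepFun (fun k => (E k).indicator (fun _ => (1 : ℝ))) μ := hE.iIndepFun_indicator
  have hXm : ∀ k, Measurable ((E k).indicator (fun _ => (1 : ℝ))) := fun k => measurable_const.indicator (hm k)
  have hmgf := hX.mgf_sum (t := -1) hXm J
  have hsum : ∀ ω, (∑ k ∈ J, (E k).indicator (fun _ => (1 : ℝ))) ω = ((J.filter (fun k => ω ∈ E k)).card : ℝ) := by
    intro ω
    rw [Finset.sum_apply, Finset.card_filter]
    push_cast
    refine Finset.sum_congr rfl (fun k _ => ?_)
    simp [Set.indicator_apply]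
  have hint : Integrable (fun ω => Real.exp (-1 * (∑ k ∈ J, (E k).indicator (fun _ => (1 : ℝ))) ω)) μ := by
    refine Integrable.of_bound (C := 1) ?_ ?_
    · have h1 : Measurable (∑ k ∈ J, (E k).indicator (fun _ => (1 : ℝ))) := by
        have h2 : (∑ k ∈ J, (E k).indicator (fun _ => (1 : ℝ))) =
            fun ω => ∑ k ∈ J, (E k).indicator (fun _ => (1 : ℝ)) ω := by
          funext ω
          rw [Finset.sum_apply]
        rw [h2]
        exact Finset.measurable_sum J (fun k _ => hXm k)
      exact ((h1.const_mul (-1)).exp).aestronglyMeasurable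
    · refine Eventually.of_forall (fun ω => ?_)
      rw [hsum ω, Real.norm_eq_abs, abs_of_pos (Real.exp_pos _)]
      have : (0 : ℝ) ≤ ((J.filter (fun k => ω ∈ E k)).card : ℝ) := Nat.cast_nonneg _
      exact Real.exp_le_one_iff.2 (by linarith)
  have hch := measure_le_le_exp_mul_mgf (μ := μ) (X := ∑ k ∈ J, (E k).indicator (fun _ => (1 : ℝ))) (t := -1) m
    (by norm_num) hint
  have hone : ∀ k, mgf ((E k).indicator (fun _ => (1 : ℝ))) μ (-1) ≤ Real.exp (-(μ.real (E k)) / 2) := by
    intro k
    have h1 : mgf ((E k).indicator (fun _ => (1 : ℝ))) μ (-1) = 1 - (1 - Real.exp (-1)) * μ.real (E k) := by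
      unfold mgf
      have h2 : (fun ω => Real.exp (-1 * (E k).indicator (fun _ => (1 : ℝ)) ω)) =
          fun ω => 1 - (E k).indicator (fun _ => (1 - Real.exp (-1))) ω := by
        funext ω
        by_cases h : ω ∈ E k <;> simp [h]
      rw [h2, integral_sub (integrable_const _) ((integrable_const _).indicator (hm k)),
        integral_indicator (hm k)]
      simp [mul_comm]
    rw [h1]
    have h3 : Real.exp (-1) ≤ 1 / 2 := by
      have h4 : (2 : ℝ) ≤ Real.exp 1 := by
        have := Real.add_one_le_exp (1 : ℝ)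
        linarith
      rw [Real.exp_neg, ← one_div]
      exact one_div_le_one_div_of_le (by norm_num) h4
    have h5 : (0 : ℝ) ≤ μ.real (E k) := measureReal_nonneg
    have h6 := Real.add_one_le_exp (-(μ.real (E k)) / 2)
    nlinarith
  have hprod : ∏ k ∈ J, mgf ((E k).indicator (fun _ => (1 : ℝ))) μ (-1) ≤
      Real.exp (-(∑ k ∈ J, μ.real (E k)) / 2) := by
    calc ∏ k ∈ J, mgf ((E k).indicator (fun _ => (1 : ℝ))) μ (-1)
        ≤ ∏ k ∈ J, Real.exp (-(μ.real (E k)) / 2) :=
          Finset.prod_le_prod (fun k _ => mgf_nonneg) (fun k _ => hone k)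
      _ = Real.exp (-(∑ k ∈ J, μ.real (E k)) / 2) := by
          rw [← Real.exp_sum]
          congr 1
          rw [← Finset.sum_neg_distrib, Finset.sum_div]
  have hfin : μ.real {ω | (∑ k ∈ J, (E k).indicator (fun _ => (1 : ℝ))) ω ≤ m} ≤
      Real.exp (m - (∑ k ∈ J, μ.real (E k)) / 2) := by
    refine hch.trans ?_
    rw [hmgf]
    calc Real.exp (-(-1) * m) * ∏ k ∈ J, mgf ((E k).indicator (fun _ => (1 : ℝ))) μ (-1)
        ≤ Real.exp (-(-1) * m) * Real.exp (-(∑ k ∈ J, μ.real (E k)) / 2) :=
          mul_le_mul_of_nonneg_left hprod (Real.exp_pos _).le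
      _ = Real.exp (m - (∑ k ∈ J, μ.real (E k)) / 2) := by
          rw [← Real.exp_add]
          congr 1
          ring
  have hset : {ω | (∑ k ∈ J, (E k).indicator (fun _ => (1 : ℝ))) ω ≤ m} =
      {ω | ((J.filter (fun k => ω ∈ E k)).card : ℝ) ≤ m} := by
    ext ω
    simp only [Set.mem_ofPred_eq, hsum ω]
  rw [hset] at hfin
  rw [← ENNReal.ofReal_toReal (measure_ne_top μ _)]
  exact ENNReal.ofReal_le_ofReal hfin

/-- disjoint pairs of independent events give independent events -/
theorem pairs_indep [IsProbabilityMeasure μ] {ι κ : Type*} {R : ι → Set Ω} (hm : ∀ i, MeasurableSet (R i))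
    (hR : iIndepSet R μ) (f g : κ → ι) (hf : Function.Injective f) (hg : Function.Injective g)
    (hfg : ∀ k l, f k ≠ g l) : iIndepSet (fun k => R (f k) ∩ R (g k)) μ := by
  classical
  rw [iIndepSet_iff_meas_biInter (fun k => (hm _).inter (hm _))]
  rw [iIndepSet_iff_meas_biInter hm] at hR
  intro s
  have hdisj : Disjoint (s.image f) (s.image g) := by
    rw [Finset.disjoint_left]
    intro x hx hy
    obtain ⟨k, -, rfl⟩ := Finset.mem_image.1 hx
    obtain ⟨l, -, h⟩ := Finset.mem_image.1 hy
    exact hfg k l h.symm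
  have h1 : (⋂ k ∈ s, (R (f k) ∩ R (g k))) = ⋂ i ∈ (s.image f ∪ s.image g), R i := by
    ext ω
    simp only [Set.mem_iInter, Set.mem_inter_iff, Finset.mem_union, Finset.mem_image]
    constructor
    · rintro h i (⟨k, hk, rfl⟩ | ⟨k, hk, rfl⟩)
      · exact (h k hk).1
      · exact (h k hk).2
    · intro h k hk
      exact ⟨h _ (Or.inl ⟨k, hk, rfl⟩), h _ (Or.inr ⟨k, hk, rfl⟩)⟩
  have h2 : ∀ k l : ι, k ≠ l → μ (R k ∩ R l) = μ (R k) * μ (R l) := by
    intro k l hkl
    have := hR {k, l}
    rw [Finset.prod_pair hkl] at this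
    rw [← this]
    congr 1
    ext ω
    simp
  rw [h1, hR, Finset.prod_union hdisj, Finset.prod_image (fun a _ b _ h => hf h),
    Finset.prod_image (fun a _ b _ h => hg h), ← Finset.prod_mul_distrib]
  refine Finset.prod_congr rfl (fun k _ => ?_)
  rw [h2 _ _ (hfg k k)]

end Pool.Agent.T6.H23.TB
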