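import Pool.Agent.T6.H23.TB.Pairs

/-! Random sets of Gaussian integers: representations, counting function, pairs and triples. -/

set_option autoImplicit false

open MeasureTheory ProbabilityTheory Filter Topology

open scoped ENNReal NNReal

namespace Pool.Agent.T6.H23.TB

open Pool.Agent.W17.AB

/-- a random set of Gaussian integers: `R g` is the event that `g` is chosen; these events are independent, and `g ≠ 0` is
chosen with probability `|g| ^ (-α)` -/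
structure IsRandomSet (α : ℝ) {Ω : Type} [MeasurableSpace Ω] (μ : Measure Ω) (R : GaussianInt → Set Ω) : Prop where
  prob : IsProbabilityMeasure μ
  meas : ∀ g, MeasurableSet (R g)
  indep : iIndepSet R μ
  density : ∀ g, g ≠ 0 → μ (R g) = ENNReal.ofReal (‖GaussianInt.toComplex g‖ ^ (-α))

theorem one_le_norm {g : Gi} (hg : g ≠ 0) : 1 ≤ ‖φ g‖ := by
  have h1 : 1 ≤ nm g := nm_pos hg
  have h2 : (1 : ℝ) ≤ ‖φ g‖ ^ 2 := by
    rw [← nm_real]
    exact_mod_cast h1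
  by_contra h
  push Not at h
  have := norm_nonneg (φ g)
  nlinarith

theorem exists_randomSet (α : ℝ) (hα : 0 < α) : ∃ (Ω : Type) (_ : MeasurableSpace Ω) (μ : Measure Ω)
    (R : GaussianInt → Set Ω), IsRandomSet α μ R := by
  obtain ⟨Ω, m, μ, R, h1, h2, h3, h4⟩ := exists_indep (fun g : Gi => ‖φ g‖ ^ (-α)) (fun g => by
    by_cases hg : g = 0
    · subst hg
      have h0 : (‖φ 0‖ : ℝ) ^ (-α) = 0 := by
        rw [show φ 0 = 0 from map_zero _, norm_zero, Real.zero_rpow (by linarith)]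
      show ‖φ 0‖ ^ (-α) ≤ 1
      rw [h0]
      exact zero_le_one
    · exact Real.rpow_le_one_of_one_le_of_nonpos (one_le_norm hg) (by linarith))
  exact ⟨Ω, m, μ, R, h1, h2, h3, fun g _ => h4 g⟩

instance : Countable Gi := by
  have : Function.Injective (fun g : Gi => ((g.re, g.im) : ℤ × ℤ)) := by
    intro a b h
    simp only [Prod.mk.injEq] at h
    exact Zsqrtd.ext h.1 h.2
  exact this.countable

variable {Ω : Type} [MeasurableSpace Ω] {μ : Measure Ω} {R : GaussianInt → Set Ω} {α : ℝ}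

theorem IsRandomSet.real (h : IsRandomSet α μ R) {g : Gi} (hg : g ≠ 0) : μ.real (R g) = ‖φ g‖ ^ (-α) := by
  unfold Measure.real
  rw [h.density g hg, ENNReal.toReal_ofReal (Real.rpow_nonneg (norm_nonneg _) _)]

theorem IsRandomSet.pair (h : IsRandomSet α μ R) {x y : Gi} (hxy : x ≠ y) (hx : x ≠ 0) (hy : y ≠ 0) :
    μ (R x ∩ R y) = ENNReal.ofReal (‖φ x‖ ^ (-α) * ‖φ y‖ ^ (-α)) := by
  have h1 := (iIndepSet_iff_meas_biInter h.meas).1 h.indep {x, y}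
  rw [Finset.prod_pair hxy] at h1
  have h2 : (⋂ i ∈ ({x, y} : Finset Gi), R i) = R x ∩ R y := by
    ext ω
    simp
  rw [h2] at h1
  rw [h1, h.density x hx, h.density y hy, ENNReal.ofReal_mul (Real.rpow_nonneg (norm_nonneg _) _)]

theorem IsRandomSet.triple (h : IsRandomSet α μ R) {x y z : Gi} (hxy : x ≠ y) (hxz : x ≠ z) (hyz : y ≠ z)
    (hx : x ≠ 0) (hy : y ≠ 0) (hz : z ≠ 0) :
    μ (R x ∩ R y ∩ R z) = ENNReal.ofReal ((‖φ x‖ * ‖φ y‖ * ‖φ z‖) ^ (-α)) := by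
  classical
  have h1 := (iIndepSet_iff_meas_biInter h.meas).1 h.indep {x, y, z}
  rw [Finset.prod_insert (by simp [hxy, hxz]), Finset.prod_pair hyz] at h1
  have h2 : (⋂ i ∈ ({x, y, z} : Finset Gi), R i) = R x ∩ R y ∩ R z := by
    ext ω
    simp [and_assoc]
  rw [h2] at h1
  rw [h1, h.density x hx, h.density y hy, h.density z hz, ← ENNReal.ofReal_mul (Real.rpow_nonneg (norm_nonneg _) _),
    ← ENNReal.ofReal_mul (Real.rpow_nonneg (norm_nonneg _) _), ← Real.mul_rpow (norm_nonneg _) (norm_nonneg _),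
    ← Real.mul_rpow (norm_nonneg _) (by positivity), mul_assoc]

/-- `exp (- η x ^ θ)` is smaller than every power -/
theorem exp_small (η θ p : ℝ) (hη : 0 < η) (hθ : 0 < θ) : ∃ K : ℝ, ∀ x : ℝ, 1 ≤ x →
    Real.exp (-(η * x ^ θ)) ≤ K * x ^ (-p) := by
  obtain ⟨n, hn⟩ := exists_nat_ge (p / θ)
  refine ⟨n.factorial / η ^ n, fun x hx => ?_⟩
  have hx0 : 0 < x := by linarith
  have hy : 0 < η * x ^ θ := by positivity
  have h1 : (η * x ^ θ) ^ n / n.factorial ≤ Real.exp (η * x ^ θ) := Real.pow_div_factorial_le_exp _ hy.le n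
  have hf : (0 : ℝ) < n.factorial := by exact_mod_cast n.factorial_pos
  have h2 : x ^ p ≤ (x ^ θ) ^ n := by
    rw [← Real.rpow_natCast, ← Real.rpow_mul hx0.le]
    apply Real.rpow_le_rpow_of_exponent_le hx
    rw [div_le_iff₀ hθ] at hn
    linarith
  rw [Real.exp_neg, Real.rpow_neg hx0.le, div_mul_eq_mul_div, ← div_eq_mul_inv, inv_eq_one_div,
    div_div, div_le_div_iff₀ (Real.exp_pos _) (by positivity), one_mul]
  rw [div_le_iff₀ hf, mul_pow] at h1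
  have h3 : η ^ n * x ^ p ≤ η ^ n * (x ^ θ) ^ n := mul_le_mul_of_nonneg_left h2 (by positivity)
  linarith

/-- the Gaussian integers of bounded absolute value -/
theorem count_gi (X : ℝ) (Y : ℝ) (hY : 1 ≤ Y) : {c : Gi | Y ≤ ‖φ c‖ ∧ ‖φ c‖ ≤ X}.Finite ∧
    ({c : Gi | Y ≤ ‖φ c‖ ∧ ‖φ c‖ ≤ X}.ncard : ℝ) ≤ 9 * X ^ (2 : ℝ) := by
  have h1 : {c : Gi | Y ≤ ‖φ c‖ ∧ ‖φ c‖ ≤ X} ⊆ (bx ⌊X ^ 2⌋₊ : Set Gi) := by
    rintro c ⟨h1, h2⟩
    rw [Finset.mem_coe, mem_bx]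
    refine ⟨?_, Nat.le_floor ?_⟩
    · rintro rfl
      rw [show φ 0 = 0 from map_zero _, norm_zero] at h1
      linarith
    · rw [nm_real]
      exact pow_le_pow_left₀ (norm_nonneg _) h2 2
  have hf : {c : Gi | Y ≤ ‖φ c‖ ∧ ‖φ c‖ ≤ X}.Finite := (Finset.finite_toSet _).subset h1
  refine ⟨hf, ?_⟩
  rw [Set.ncard_eq_toFinset_card _ hf, Real.rpow_two]
  refine few_small _ X (fun x hx => ?_)
  rw [Set.Finite.mem_toFinset] at hx
  refine ⟨?_, hx.2⟩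
  rintro rfl
  have := hx.1
  rw [show φ 0 = 0 from map_zero _, norm_zero] at this
  linarith

/-- **Representations.** -/
theorem basis (h : IsRandomSet α μ R) (hα : 0 < α) (hα1 : α < 1) (δ κ : ℝ) (hδ : 0 < δ) (hκ : κ < 1) :
    ∀ᵐ ω ∂μ, ∃ X₀ : ℝ, ∀ c : Gi, X₀ ≤ ‖φ c‖ → ‖φ c‖ ^ (2 - 2 * α - δ) ≤
      ({a : Gi | ω ∈ R a ∧ ω ∈ R (c - a) ∧ IsCoprime a (c - a) ∧ ‖φ a‖ ≤ ‖φ c‖ ∧
        ‖φ c‖ ^ κ ≤ ‖φ a‖ ∧ ‖φ c‖ ^ κ ≤ ‖φ (c - a)‖}.ncard : ℝ) := by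
  classical
  have := h.prob
  set δ' : ℝ := min δ (1 - α) / 2 with hδ'
  have hm1 : min δ (1 - α) ≤ δ := min_le_left _ _
  have hm2 : min δ (1 - α) ≤ 1 - α := min_le_right _ _
  have hm0 : 0 < min δ (1 - α) := lt_min hδ (by linarith)
  have hδ'0 : 0 < δ' := by positivity
  obtain ⟨η, hη, X₁, hX₁, hJ⟩ := pairs δ' κ hδ'0 hκ
  set θ : ℝ := 2 - 2 * α - δ' with hθ
  have hθ0 : 0 < θ := by
    rw [hθ, hδ']
    linarith
  set η' : ℝ := η * 2 ^ (-α) / 4 with hη'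
  have hη'0 : 0 < η' := by positivity
  choose! J hJ1 hJ2 hJ3 using hJ
  obtain ⟨K, hK⟩ := exp_small η' θ 3 hη'0 hθ0
  obtain ⟨X₂, hX₂, hX₂'⟩ := exists_large (2 - 2 * α - δ) θ (1 / η') (by rw [hθ, hδ']; linarith)
  set E : Gi → Set Ω := fun c => {ω | (((J c).filter (fun a => ω ∈ R a ∩ R (c - a))).card : ℝ) ≤ η' * ‖φ c‖ ^ θ} with hE
  have hprob : ∀ c ∈ {c : Gi | X₁ ≤ ‖φ c‖}, μ (E c) ≤ ENNReal.ofReal (K * ‖φ c‖ ^ (-(3 : ℝ))) := by
    intro c hc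
    have hc1 : 1 ≤ ‖φ c‖ := hX₁.trans hc
    have hc0 : 0 < ‖φ c‖ := by linarith
    have hind : iIndepSet (fun a : J c => R a ∩ R (c - a)) μ :=
      pairs_indep h.meas h.indep (fun a : J c => (a : Gi)) (fun a : J c => c - a) Subtype.val_injective
        (fun a b hab => Subtype.ext (sub_right_injective hab)) (fun a b => hJ2 c hc a a.2 b b.2)
    have hlt := lower_tail (E := fun a : J c => R a ∩ R (c - a)) (fun a => (h.meas _).inter (h.meas _)) hind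
      Finset.univ (η' * ‖φ c‖ ^ θ)
    have hset : E c ⊆ {ω | ((Finset.univ.filter (fun a : J c => ω ∈ R a ∩ R (c - a))).card : ℝ) ≤ η' * ‖φ c‖ ^ θ} := by
      intro ω hω
      have h1 : (Finset.univ.filter (fun a : J c => ω ∈ R a ∩ R (c - a))).card ≤
          ((J c).filter (fun a => ω ∈ R a ∩ R (c - a))).card := by
        refine Finset.card_le_card_of_injOn (fun a : J c => (a : Gi)) ?_ Subtype.val_injective.injOn
        intro a ha
        rw [Finset.mem_coe, Finset.mem_filter] at ha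
        rw [Finset.mem_coe, Finset.mem_filter]
        exact ⟨a.2, ha.2⟩
      have h2 : ((Finset.univ.filter (fun a : J c => ω ∈ R a ∩ R (c - a))).card : ℝ) ≤
          (((J c).filter (fun a => ω ∈ R a ∩ R (c - a))).card : ℝ) := by exact_mod_cast h1
      exact h2.trans hω
    have hsum : 4 * (η' * ‖φ c‖ ^ θ) ≤ ∑ a : J c, μ.real (R a ∩ R (c - a)) := by
      have hone : ∀ a : J c, 2 ^ (-α) * ‖φ c‖ ^ (-(2 * α)) ≤ μ.real (R a ∩ R (c - a)) := by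
        intro a
        obtain ⟨ha0, hca0, _, ha1, hca1, _, _⟩ := hJ1 c hc a a.2
        have hne : (a : Gi) ≠ c - a := hJ2 c hc a a.2 a a.2
        unfold Measure.real
        rw [h.pair hne ha0 hca0, ENNReal.toReal_ofReal (by positivity)]
        have e1 : ‖φ c‖ ^ (-α) ≤ ‖φ a‖ ^ (-α) :=
          Real.rpow_le_rpow_of_nonpos (lt_of_lt_of_le one_pos (one_le_norm ha0)) ha1 (by linarith)
        have e2 : (2 * ‖φ c‖) ^ (-α) ≤ ‖φ (c - a)‖ ^ (-α) :=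
          Real.rpow_le_rpow_of_nonpos (lt_of_lt_of_le one_pos (one_le_norm hca0)) hca1 (by linarith)
        have e3 : 2 ^ (-α) * ‖φ c‖ ^ (-(2 * α)) = ‖φ c‖ ^ (-α) * (2 * ‖φ c‖) ^ (-α) := by
          rw [Real.mul_rpow (by norm_num) hc0.le, show -(2 * α) = -α + -α by ring, Real.rpow_add hc0]
          ring
        rw [e3]
        exact mul_le_mul e1 e2 (by positivity) (by positivity)
      calc 4 * (η' * ‖φ c‖ ^ θ) = (η * ‖φ c‖ ^ (2 - δ')) * (2 ^ (-α) * ‖φ c‖ ^ (-(2 * α))) := by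
            rw [hη', hθ, show 2 - 2 * α - δ' = (2 - δ') + -(2 * α) by ring, Real.rpow_add hc0]
            ring
        _ ≤ ((J c).card : ℝ) * (2 ^ (-α) * ‖φ c‖ ^ (-(2 * α))) :=
            mul_le_mul_of_nonneg_right (hJ3 c hc) (by positivity)
        _ = ∑ _a : J c, (2 ^ (-α) * ‖φ c‖ ^ (-(2 * α))) := by
            rw [Finset.sum_const, nsmul_eq_mul, Finset.card_univ, Fintype.card_coe]
        _ ≤ ∑ a : J c, μ.real (R a ∩ R (c - a)) := Finset.sum_le_sum (fun a _ => hone a)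
    refine (measure_mono hset).trans (hlt.trans (ENNReal.ofReal_le_ofReal ?_))
    refine le_trans (Real.exp_le_exp.2 ?_) (hK ‖φ c‖ hc1)
    linarith
  have hae := ae_finite (μ := μ) {c : Gi | X₁ ≤ ‖φ c‖} (fun c => ‖φ c‖) 9 K 2 3 (by norm_num) (by norm_num)
    (fun c hc => hX₁.trans hc) (fun X _ => count_gi X X₁ hX₁) E hprob
  filter_upwards [hae] with ω hω
  obtain ⟨M, hM⟩ : ∃ M : ℝ, ∀ c ∈ {t | t ∈ {c : Gi | X₁ ≤ ‖φ c‖} ∧ ω ∈ E t}, ‖φ c‖ ≤ M := by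
    obtain ⟨M, hM⟩ := (hω.image (fun c => ‖φ c‖)).bddAbove
    exact ⟨M, fun c hc => hM ⟨c, hc, rfl⟩⟩
  refine ⟨max (max X₁ X₂) (M + 1), fun c hc => ?_⟩
  have hc1 : X₁ ≤ ‖φ c‖ := ((le_max_left _ _).trans (le_max_left _ _)).trans hc
  have hc2 : X₂ ≤ ‖φ c‖ := ((le_max_right _ _).trans (le_max_left _ _)).trans hc
  have hc3 : M + 1 ≤ ‖φ c‖ := (le_max_right _ _).trans hc
  have hnot : ω ∉ E c := by
    intro hE'
    have := hM c ⟨hc1, hE'⟩
    linarith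
  simp only [hE, Set.mem_ofPred_eq, not_le] at hnot
  have h5 := hX₂' _ hc2
  rw [one_div, ← div_eq_inv_mul, div_le_iff₀ hη'0] at h5
  have h6 : (((J c).filter (fun a => ω ∈ R a ∩ R (c - a))).card : ℝ) ≤
      ({a : Gi | ω ∈ R a ∧ ω ∈ R (c - a) ∧ IsCoprime a (c - a) ∧ ‖φ a‖ ≤ ‖φ c‖ ∧
        ‖φ c‖ ^ κ ≤ ‖φ a‖ ∧ ‖φ c‖ ^ κ ≤ ‖φ (c - a)‖}.ncard : ℝ) := by
    have hsub : (((J c).filter (fun a => ω ∈ R a ∩ R (c - a)) : Finset Gi) : Set Gi) ⊆
        {a : Gi | ω ∈ R a ∧ ω ∈ R (c - a) ∧ IsCoprime a (c - a) ∧ ‖φ a‖ ≤ ‖φ c‖ ∧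
        ‖φ c‖ ^ κ ≤ ‖φ a‖ ∧ ‖φ c‖ ^ κ ≤ ‖φ (c - a)‖} := by
      intro a ha
      rw [Finset.mem_coe, Finset.mem_filter] at ha
      obtain ⟨_, _, h3, h4, _, h7, h8⟩ := hJ1 c hc1 a ha.1
      exact ⟨ha.2.1, ha.2.2, h3, h4, h7, h8⟩
    have hfin : {a : Gi | ω ∈ R a ∧ ω ∈ R (c - a) ∧ IsCoprime a (c - a) ∧ ‖φ a‖ ≤ ‖φ c‖ ∧
        ‖φ c‖ ^ κ ≤ ‖φ a‖ ∧ ‖φ c‖ ^ κ ≤ ‖φ (c - a)‖}.Finite := by
      refine Set.Finite.subset ((Finset.finite_toSet (bx (nm c))).insert 0) ?_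
      rintro a ⟨_, _, _, h4, _, _⟩
      by_cases h0 : a = 0
      · exact Or.inl h0
      · right
        rw [Finset.mem_coe, mem_bx]
        refine ⟨h0, ?_⟩
        have : (nm a : ℝ) ≤ nm c := by
          rw [nm_real, nm_real]
          exact pow_le_pow_left₀ (norm_nonneg _) h4 2
        exact_mod_cast this
    have := Set.ncard_le_ncard hsub hfin
    rw [Set.ncard_coe_finset] at this
    exact_mod_cast this
  linarith

end Pool.Agent.T6.H23.TB
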