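import Pool.Agent.T6.H23.TB.BC

/-! Thin families of objects with members among the natural numbers, and sparse random sets (no independence). -/

set_option autoImplicit false

open MeasureTheory ProbabilityTheory Filter Topology

open scoped ENNReal NNReal

namespace Pool.Agent.T6.H23.TB.NN

variable {Ω : Type} [MeasurableSpace Ω] {μ : Measure Ω} {R : ℕ → Set Ω} {α : ℝ}

/-- only finitely many objects of a thin family have a large member in a sparse random set -/
theorem sparse_one (hα : 0 < α) (C₀ : ℝ) (hR : ∀ n : ℕ, n ≠ 0 → μ (R n) ≤ ENNReal.ofReal (C₀ * (n : ℝ) ^ (-α)))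
    {T : Type} [Countable T] (S : Set T) (ht : T → ℝ)
    (mem : T → Finset ℕ) (C s κ : ℝ) (hκ : 0 < κ) (hs : s < κ * α) (h1 : ∀ t ∈ S, 1 ≤ ht t)
    (hcard : ∀ t ∈ S, (mem t).card ≤ 3)
    (hS : ∀ X : ℝ, 1 ≤ X → {t | t ∈ S ∧ ht t ≤ X}.Finite ∧ ({t | t ∈ S ∧ ht t ≤ X}.ncard : ℝ) ≤ C * X ^ s) :
    ∀ᵐ ω ∂μ, {t | t ∈ S ∧ ∃ x ∈ mem t, ω ∈ R x ∧ ht t ^ κ ≤ (x : ℝ)}.Finite := by
  classical
  set F : T → Finset ℕ := fun t => (mem t).filter (fun q => ht t ^ κ ≤ (q : ℝ)) with hF
  have hae := ae_finite (μ := μ) S ht C (3 * |C₀|) s (κ * α) hs (by positivity) h1 hS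
    (fun t => ⋃ q ∈ F t, R q) (fun t htS => by
      have hH := h1 t htS
      have hH0 : 0 < ht t := by linarith
      calc μ (⋃ q ∈ F t, R q) ≤ ∑ q ∈ F t, μ (R q) := measure_biUnion_finset_le _ _
        _ ≤ ∑ _q ∈ F t, ENNReal.ofReal (|C₀| * ht t ^ (-(κ * α))) := by
            refine Finset.sum_le_sum (fun q hq => ?_)
            rw [hF, Finset.mem_filter] at hq
            obtain ⟨q1, q4⟩ := hq
            have hq0 : (0 : ℝ) < q := lt_of_lt_of_le (Real.rpow_pos_of_pos hH0 _) q4
            have hq1 : q ≠ 0 := by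
              rintro rfl
              simp at hq0
            refine (hR q hq1).trans (ENNReal.ofReal_le_ofReal ?_)
            have e1 : (q : ℝ) ^ (-α) ≤ (ht t ^ κ) ^ (-α) :=
              Real.rpow_le_rpow_of_nonpos (by positivity) q4 (by linarith)
            rw [← Real.rpow_mul hH0.le, mul_neg] at e1
            exact mul_le_mul (le_abs_self _) e1 (by positivity) (abs_nonneg _)
        _ = ENNReal.ofReal ((F t).card * (|C₀| * ht t ^ (-(κ * α)))) := by
            rw [Finset.sum_const, nsmul_eq_mul, ENNReal.ofReal_mul (Nat.cast_nonneg _), ENNReal.ofReal_natCast]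
        _ ≤ ENNReal.ofReal (3 * |C₀| * ht t ^ (-(κ * α))) := by
            apply ENNReal.ofReal_le_ofReal
            have hcard : (F t).card ≤ 3 := (Finset.card_filter_le _ _).trans (hcard t htS)
            have hcard' : ((F t).card : ℝ) ≤ 3 := by exact_mod_cast hcard
            rw [mul_assoc]
            exact mul_le_mul_of_nonneg_right hcard' (by positivity))
  filter_upwards [hae] with ω hω
  refine hω.subset ?_
  rintro t ⟨ht', x, hx, hRx, hx2⟩
  refine ⟨ht', ?_⟩
  rw [Set.mem_iUnion₂]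
  exact ⟨x, Finset.mem_filter.2 ⟨hx, hx2⟩, hRx⟩

end Pool.Agent.T6.H23.TB.NN
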