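import Pool.Agent.Y673.PP.Fin
import Pool.Agent.T6.H23.TB.Sparse
import Pool.Agent.T6.H23.TB.NatRand

/-!
# Uniform boundedness for all parameters with height in a random set

Let `A` be a random set of positive integers which contains each `n` with probability at most `C n ^ (-α)`, where `α > 0`
is arbitrarily small; there is no further condition, and `A` may be an additive basis of order two. For all `d ≥ 2` and `D`
there is `N₀ = N₀ (D, d, α)` such that for each number field `K` of degree `D`, almost surely, all but finitely many of the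
maps `z ^ d + c` with `c ∈ K` whose height `H_K (c)` has its integral part in `A` have at most `N₀` preperiodic points in
`K`; so there is a bound for ALL these maps. Over `ℚ` it suffices that the numerator or the denominator of `c`, if it is at
least `H (c) ^ κ`, is in `A`.
-/

set_option autoImplicit false

namespace Pool.Agent.T6.H23.TB.RandomParameters

open MeasureTheory ProbabilityTheory NumberField Height

/-- the points of `K` with a finite forward orbit under `w ↦ w ^ d + c` -/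
def preperiodic {K : Type} [Field K] (d : ℕ) (c : K) : Set K :=
  {z | (Set.range fun k : ℕ => (fun w : K => w ^ d + c)^[k] z).Finite}

/-- the random set `A`, where `R n` is the event `n ∈ A`, contains each `n ≥ 1` with probability at most `C n ^ (-α)` -/
structure Sparse (α C : ℝ) {Ω : Type} [MeasurableSpace Ω] (μ : Measure Ω) (R : ℕ → Set Ω) : Prop where
  prob : IsProbabilityMeasure μ
  meas : ∀ n, MeasurableSet (R n)
  density : ∀ n, n ≠ 0 → μ (R n) ≤ ENNReal.ofReal (C * (n : ℝ) ^ (-α))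

/-- preperiodic points of one map (Northcott) -/
theorem finite_preperiodic {K : Type} [Field K] [NumberField K] {d : ℕ} (hd : 2 ≤ d) (c : K) :
    (preperiodic d c).Finite := by
  obtain ⟨v, hv⟩ := Pool.Agent.Y673.PP.sz_of_height (le_refl (mulHeight₁ c))
  have hv0 : (v : K) ≠ 0 := by exact_mod_cast hv.1
  have hfin := Embeddings.finite_of_norm_le K ℂ (2 * (mulHeight₁ c) ^ (d + 1))
  refine Set.Finite.subset (hfin.preimage ((mul_right_injective₀ hv0).injOn)) ?_
  intro z hz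
  obtain ⟨a, u, h⟩ := Pool.Agent.Y673.PP.exists_pt hd hv (Pool.Agent.Y673.PP.prep_of_finite hz)
  have h1 : (u 0 : K) = v * z := h.hu 0
  refine ⟨?_, fun σ => ?_⟩
  · show IsIntegral ℤ ((v : K) * z)
    rw [← h1]
    exact (u 0).isIntegral_coe
  · have := h.uY 0 σ
    rwa [h1] at this

theorem uniform {K : Type} [Field K] [NumberField K] {d : ℕ} (hd : 2 ≤ d) {P : K → Prop} {N₀ : ℕ}
    (h : {c : K | P c ∧ (N₀ : ℕ∞) < (preperiodic d c).encard}.Finite) :
    ∃ N : ℕ, ∀ c : K, P c → (preperiodic d c).encard ≤ N := by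
  classical
  refine ⟨N₀ + ∑ c ∈ h.toFinset, (preperiodic d c).ncard, fun c hc => ?_⟩
  rcases le_or_gt (preperiodic d c).encard (N₀ : ℕ∞) with h1 | h1
  · exact h1.trans (by exact_mod_cast Nat.le_add_right _ _)
  · have h2 : c ∈ h.toFinset := h.mem_toFinset.2 ⟨hc, h1⟩
    rw [← (finite_preperiodic hd c).cast_ncard_eq]
    have h3 := Finset.single_le_sum (f := fun c => (preperiodic d c).ncard) (fun _ _ => Nat.zero_le _) h2
    exact_mod_cast (h3.trans (Nat.le_add_left _ _))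

/-- **Theorem.** Let `d ≥ 2` and `α > 0`.
(1) For every `D` there is `N₀` such that for every number field `K` of degree `D` and every random set `A` of positive
integers which contains each `n` with probability at most `C n ^ (-α)`, almost surely: only finitely many `c ∈ K` with
`⌊H_K (c)⌋ ∈ A` (the relative height) have more than `N₀` preperiodic points of `w ^ d + c` in `K`, and there is an upper
bound for the number of these points which holds for all `c ∈ K` with `⌊H_K (c)⌋ ∈ A`.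
(2) For every `κ > 0` there is `N₀` such that for every such random set, almost surely: only finitely many rational `c` one
of whose members `m = |numerator|` or `m = denominator` is in `A` and satisfies `m ≥ H (c) ^ κ`, `H (c)` the height (the
larger one), have more than `N₀` rational preperiodic points, and there is a bound which holds for all these `c`.
(3) If `α < 1 / 2`, there is such a random set `A` with `C = 1` for which the events `n ∈ A` are independent, each `n` is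
chosen with probability `n ^ (-α)`, and almost surely, for all `δ > 0`, each large `n` has at least
`n ^ (1 - 2 α - δ)` representations `n = a + b` with coprime `a < b`, `a, b ∈ A`, and `A` has at least `T ^ (1 - α - δ)`
elements up to each large `T`. -/
theorem result (d : ℕ) (hd : 2 ≤ d) (α : ℝ) (hα : 0 < α) :
    (∀ D : ℕ, 1 ≤ D → ∃ N₀ : ℕ, ∀ (K : Type) [Field K] [NumberField K], Module.finrank ℚ K = D →
      ∀ (Ω : Type) [MeasurableSpace Ω] (μ : Measure Ω) (R : ℕ → Set Ω) (C : ℝ), Sparse α C μ R → ∀ᵐ ω ∂μ,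
        {c : K | ω ∈ R ⌊mulHeight₁ c⌋₊ ∧ (N₀ : ℕ∞) < (preperiodic d c).encard}.Finite ∧
        ∃ N : ℕ, ∀ c : K, ω ∈ R ⌊mulHeight₁ c⌋₊ → (preperiodic d c).encard ≤ N) ∧
    (∀ κ : ℝ, 0 < κ → ∃ N₀ : ℕ, ∀ (Ω : Type) [MeasurableSpace Ω] (μ : Measure Ω) (R : ℕ → Set Ω) (C : ℝ),
      Sparse α C μ R → ∀ᵐ ω ∂μ,
        {c : ℚ | (∃ m ∈ ({c.num.natAbs, c.den} : Set ℕ), ω ∈ R m ∧ ((max c.num.natAbs c.den : ℕ) : ℝ) ^ κ ≤ m) ∧
          (N₀ : ℕ∞) < (preperiodic d c).encard}.Finite ∧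
        ∃ N : ℕ, ∀ c : ℚ, (∃ m ∈ ({c.num.natAbs, c.den} : Set ℕ), ω ∈ R m ∧
          ((max c.num.natAbs c.den : ℕ) : ℝ) ^ κ ≤ m) → (preperiodic d c).encard ≤ N) ∧
    (α < 1 / 2 → ∃ (Ω : Type) (_ : MeasurableSpace Ω) (μ : Measure Ω) (R : ℕ → Set Ω), Sparse α 1 μ R ∧ iIndepSet R μ ∧
      (∀ n, n ≠ 0 → μ (R n) = ENNReal.ofReal ((n : ℝ) ^ (-α))) ∧ ∀ᵐ ω ∂μ,
        (∀ δ : ℝ, 0 < δ → ∃ n₀ : ℕ, ∀ n : ℕ, n₀ ≤ n → (n : ℝ) ^ (1 - 2 * α - δ) ≤
          ({a : ℕ | 2 * a < n ∧ ω ∈ R a ∧ ω ∈ R (n - a) ∧ Nat.Coprime a (n - a)}.ncard : ℝ)) ∧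
        (∀ δ : ℝ, 0 < δ → ∃ T₀ : ℝ, ∀ T : ℝ, T₀ ≤ T →
          T ^ (1 - α - δ) ≤ ({m : ℕ | ω ∈ R m ∧ (m : ℝ) ≤ T}.ncard : ℝ))) := by
  refine ⟨fun D hD => ?_, fun κ hκ => ?_, fun hα1 => ?_⟩
  · obtain ⟨N₀, B, h⟩ := Pool.Agent.Y673.PP.few_params hd D hD (α / 2) (by positivity)
    refine ⟨N₀, fun K _ _ hK Ω _ μ R C hR => ?_⟩
    have hcount : Countable K := (Module.finBasis ℚ K).equivFun.injective.countable
    have hfl : ∀ c : K, 1 ≤ ⌊mulHeight₁ c⌋₊ := fun c => Nat.le_floor (by exact_mod_cast one_le_mulHeight₁ c)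
    have hae := Pool.Agent.T6.H23.TB.NN.sparse_one (μ := μ) (R := R) (α := α) hα C hR.density
      {c : K | (N₀ : ℕ∞) < (preperiodic d c).encard} (fun c => (⌊mulHeight₁ c⌋₊ : ℝ)) (fun c => {⌊mulHeight₁ c⌋₊})
      (|B| * 2 ^ (α / 2)) (α / 2) 1
      one_pos (by linarith) (fun c _ => by exact_mod_cast hfl c) (fun c _ => by simp) (fun X hX => by
        have hsub : {t | t ∈ {c : K | (N₀ : ℕ∞) < (preperiodic d c).encard} ∧ (⌊mulHeight₁ t⌋₊ : ℝ) ≤ X} ⊆
            {c : K | mulHeight₁ c ≤ 2 * X ∧ (N₀ : ℕ∞) < (preperiodic d c).encard} := by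
          rintro c ⟨h1, h2⟩
          refine ⟨?_, h1⟩
          have := Nat.lt_floor_add_one (mulHeight₁ c)
          linarith
        obtain ⟨h3, h4⟩ := h K hK (2 * X) (by linarith)
        refine ⟨h3.subset hsub, ?_⟩
        have h5 : ({t | t ∈ {c : K | (N₀ : ℕ∞) < (preperiodic d c).encard} ∧ (⌊mulHeight₁ t⌋₊ : ℝ) ≤ X}.ncard : ℝ) ≤
            B * (2 * X) ^ (α / 2) :=
          le_trans (by exact_mod_cast Set.ncard_le_ncard hsub h3) h4
        refine h5.trans ?_
        rw [Real.mul_rpow (by norm_num) (by linarith), mul_assoc]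
        exact mul_le_mul_of_nonneg_right (le_abs_self B) (by positivity))
    filter_upwards [hae] with ω hω
    have hfin : {c : K | ω ∈ R ⌊mulHeight₁ c⌋₊ ∧ (N₀ : ℕ∞) < (preperiodic d c).encard}.Finite := by
      refine hω.subset ?_
      rintro c ⟨h1, h2⟩
      refine ⟨h2, ⌊mulHeight₁ c⌋₊, by simp, h1, ?_⟩
      rw [Real.rpow_one]
    exact ⟨hfin, uniform hd hfin⟩
  · obtain ⟨N₀, B, h⟩ := Pool.Agent.Y673.PP.few_rat hd (κ * α / 2) (by positivity)
    refine ⟨N₀, fun Ω _ μ R C hR => ?_⟩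
    have hmax : ∀ c : ℚ, 1 ≤ max c.num.natAbs c.den := fun c => (Nat.one_le_iff_ne_zero.2 c.den_nz).trans (le_max_right _ _)
    have hle : ∀ (c : ℚ) (X : ℝ), ((max c.num.natAbs c.den : ℕ) : ℝ) ≤ X ↔
        ((|c.num| : ℤ) : ℝ) ≤ X ∧ (c.den : ℝ) ≤ X := by
      intro c X
      rw [Nat.cast_max, max_le_iff, Nat.cast_natAbs]
    have hae := Pool.Agent.T6.H23.TB.NN.sparse_one (μ := μ) (R := R) (α := α) hα C hR.density
      {c : ℚ | (N₀ : ℕ∞) < (preperiodic d c).encard} (fun c => ((max c.num.natAbs c.den : ℕ) : ℝ))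
      (fun c => {c.num.natAbs, c.den}) B (κ * α / 2) κ hκ (by
        have : 0 < κ * α := by positivity
        linarith)
      (fun c _ => by exact_mod_cast hmax c) (fun c _ => (Finset.card_le_two).trans (by norm_num)) (fun X hX => by
        have hset : {t | t ∈ {c : ℚ | (N₀ : ℕ∞) < (preperiodic d c).encard} ∧
            ((max t.num.natAbs t.den : ℕ) : ℝ) ≤ X} =
            {c : ℚ | ((|c.num| : ℤ) : ℝ) ≤ X ∧ (c.den : ℝ) ≤ X ∧ (N₀ : ℕ∞) < (preperiodic d c).encard} := by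
          ext c
          constructor
          · rintro ⟨h1, h2⟩
            obtain ⟨h5, h6⟩ := (hle c X).1 h2
            exact ⟨h5, h6, h1⟩
          · rintro ⟨h5, h6, h1⟩
            exact ⟨h1, (hle c X).2 ⟨h5, h6⟩⟩
        rw [hset]
        exact h X hX)
    filter_upwards [hae] with ω hω
    have hfin : {c : ℚ | (∃ m ∈ ({c.num.natAbs, c.den} : Set ℕ), ω ∈ R m ∧
        ((max c.num.natAbs c.den : ℕ) : ℝ) ^ κ ≤ m) ∧ (N₀ : ℕ∞) < (preperiodic d c).encard}.Finite := by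
      refine hω.subset ?_
      rintro c ⟨⟨m, hm, h1, h3⟩, h2⟩
      exact ⟨h2, m, by simpa using hm, h1, h3⟩
    exact ⟨hfin, uniform hd hfin⟩
  · obtain ⟨Ω, m, μ, R, h⟩ := Pool.Agent.T6.H23.TB.NN.exists_randomSet α hα
    refine ⟨Ω, m, μ, R, ⟨h.prob, h.meas, fun n hn => by rw [h.density n hn, one_mul]⟩, h.indep, h.density, ?_⟩
    have p4 : ∀ᵐ ω ∂μ, ∀ m : ℕ, ∃ n₀ : ℕ, ∀ n : ℕ, n₀ ≤ n →
        (n : ℝ) ^ (1 - 2 * α - 1 / ((m : ℝ) + 1)) ≤
          ({a : ℕ | 2 * a < n ∧ ω ∈ R a ∧ ω ∈ R (n - a) ∧ Nat.Coprime a (n - a) ∧ (n : ℝ) ^ (0 : ℝ) ≤ a}.ncard : ℝ) := by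
      rw [ae_all_iff]
      intro m
      exact Pool.Agent.T6.H23.TB.NN.basis h hα hα1 (1 / ((m : ℝ) + 1)) 0 (by positivity) (by norm_num)
    have p5 : ∀ᵐ ω ∂μ, ∀ m : ℕ, ∃ T₀ : ℝ, ∀ T : ℝ, T₀ ≤ T →
        T ^ (1 - α - 1 / ((m : ℝ) + 1)) ≤ ({m : ℕ | ω ∈ R m ∧ (m : ℝ) ≤ T}.ncard : ℝ) := by
      rw [ae_all_iff]
      intro m
      exact Pool.Agent.T6.H23.TB.NN.size_lower h hα (by linarith) (1 / ((m : ℝ) + 1)) (by positivity)
    filter_upwards [p4, p5] with ω w4 w5
    refine ⟨fun δ hδ => ?_, fun δ hδ => ?_⟩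
    · obtain ⟨m, hm⟩ := exists_nat_one_div_lt hδ
      obtain ⟨n₀, hn₀⟩ := w4 m
      refine ⟨max n₀ 1, fun n hn => ?_⟩
      have hn1 : 1 ≤ (n : ℝ) := by exact_mod_cast (le_max_right _ _).trans hn
      refine (Real.rpow_le_rpow_of_exponent_le hn1 (by linarith)).trans
        ((hn₀ n ((le_max_left _ _).trans hn)).trans ?_)
      have hsub : {a : ℕ | 2 * a < n ∧ ω ∈ R a ∧ ω ∈ R (n - a) ∧ Nat.Coprime a (n - a) ∧ (n : ℝ) ^ (0 : ℝ) ≤ a} ⊆
          {a : ℕ | 2 * a < n ∧ ω ∈ R a ∧ ω ∈ R (n - a) ∧ Nat.Coprime a (n - a)} := by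
        rintro a ⟨a1, a2, a3, a4, _⟩
        exact ⟨a1, a2, a3, a4⟩
      have hfin : {a : ℕ | 2 * a < n ∧ ω ∈ R a ∧ ω ∈ R (n - a) ∧ Nat.Coprime a (n - a)}.Finite :=
        (Finset.finite_toSet (Finset.range n)).subset (fun a ha => by
          have := ha.1
          rw [Finset.mem_coe, Finset.mem_range]
          omega)
      exact_mod_cast Set.ncard_le_ncard hsub hfin
    · obtain ⟨m, hm⟩ := exists_nat_one_div_lt hδ
      obtain ⟨T₀, h9⟩ := w5 m
      refine ⟨max T₀ 1, fun T hT => ?_⟩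
      have hT1 : 1 ≤ T := (le_max_right _ _).trans hT
      exact (Real.rpow_le_rpow_of_exponent_le hT1 (by linarith)).trans (h9 T ((le_max_left _ _).trans hT))

end Pool.Agent.T6.H23.TB.RandomParameters
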