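import Pool.Agent.T6.H23.TB.Rand

/-! The counting function of a random set of Gaussian integers. -/

set_option autoImplicit false

open MeasureTheory ProbabilityTheory Filter Topology

open scoped ENNReal NNReal

namespace Pool.Agent.T6.H23.TB

open Pool.Agent.W17.AB

variable {Ω : Type} [MeasurableSpace Ω] {μ : Measure Ω} {R : GaussianInt → Set Ω} {α : ℝ}

theorem finite_le (P : Gi → Prop) (T : ℝ) : {g : Gi | P g ∧ ‖φ g‖ ≤ T}.Finite := by
  refine Set.Finite.subset ((Finset.finite_toSet (bx ⌊T ^ 2⌋₊)).insert 0) ?_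
  rintro g ⟨_, h2⟩
  by_cases h0 : g = 0
  · exact Or.inl h0
  · right
    rw [Finset.mem_coe, mem_bx]
    refine ⟨h0, Nat.le_floor ?_⟩
    rw [nm_real]
    exact pow_le_pow_left₀ (norm_nonneg _) h2 2

/-- upper bound for the counting function -/
theorem size_upper (h : IsRandomSet α μ R) (hα2 : α < 2) (δ : ℝ) (hδ : 0 < δ) :
    ∀ᵐ ω ∂μ, ∃ C : ℝ, ∀ T : ℝ, 1 ≤ T →
      ({g : Gi | ω ∈ R g ∧ ‖φ g‖ ≤ T}.ncard : ℝ) ≤ C * T ^ (2 - α + δ) := by
  classical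
  have := h.prob
  set S : Set Gi := {g | 1 ≤ ‖φ g‖} with hS
  set w : Gi → ℝ≥0∞ := fun g => ENNReal.ofReal (‖φ g‖ ^ (-(2 - α + δ))) with hw
  set f : Ω → ℝ≥0∞ := fun ω => ∑' g : S, (R g).indicator (fun _ => w g) ω with hf
  have hfm : Measurable f := Measurable.tsum (fun g => measurable_const.indicator (h.meas g))
  have hne : ∀ g : Gi, g ∈ S → g ≠ 0 := by
    rintro g hg rfl
    rw [hS, Set.mem_ofPred_eq, show φ 0 = 0 from map_zero _, norm_zero] at hg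
    linarith
  have hint : ∫⁻ ω, f ω ∂μ ≠ ∞ := by
    have h0 : ∫⁻ ω, f ω ∂μ = ∑' g : S, ∫⁻ ω, (R (g : Gi)).indicator (fun _ => w g) ω ∂μ :=
      lintegral_tsum (fun g : S => (measurable_const.indicator (h.meas (g : Gi))).aemeasurable)
    rw [h0]
    have h1 : ∀ g : S, ∫⁻ ω, (R g).indicator (fun _ => w g) ω ∂μ = ENNReal.ofReal (‖φ g‖ ^ (-(2 + δ))) := by
      intro g
      have hg0 : 0 < ‖φ (g : Gi)‖ := lt_of_lt_of_le one_pos g.2
      rw [lintegral_indicator (h.meas g), lintegral_const, Measure.restrict_apply MeasurableSet.univ, Set.univ_inter,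
        h.density g (hne g g.2), hw]
      simp only
      rw [← ENNReal.ofReal_mul (Real.rpow_nonneg (norm_nonneg _) _), ← Real.rpow_add hg0]
      congr 2
      ring
    simp only [h1]
    exact tsum_ne_top S (fun g => ‖φ g‖) 9 2 (2 + δ) (by linarith) (by linarith) (fun t ht => ht)
      (fun X _ => count_gi X 1 le_rfl)
  filter_upwards [ae_lt_top hfm hint] with ω hω
  refine ⟨(f ω).toReal + 1, fun T hT => ?_⟩
  have hT0 : 0 < T := by linarith
  have hTp : 0 < T ^ (2 - α + δ) := Real.rpow_pos_of_pos hT0 _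
  have hT1 : 1 ≤ T ^ (2 - α + δ) := Real.one_le_rpow hT (by linarith)
  have hfin := finite_le (fun g => ω ∈ R g) T
  set P : Finset Gi := hfin.toFinset.filter (fun g => g ≠ 0) with hP
  have hcard : {g : Gi | ω ∈ R g ∧ ‖φ g‖ ≤ T}.ncard ≤ P.card + 1 := by
    rw [Set.ncard_eq_toFinset_card _ hfin]
    have hsub : hfin.toFinset ⊆ insert 0 P := by
      intro g hg
      rw [Finset.mem_insert, hP, Finset.mem_filter]
      by_cases h0 : g = 0
      · exact Or.inl h0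
      · exact Or.inr ⟨hg, h0⟩
    exact (Finset.card_le_card hsub).trans (Finset.card_insert_le _ _)
  have hPm : ∀ g ∈ P, g ∈ S ∧ ω ∈ R g ∧ ‖φ g‖ ≤ T := by
    intro g hg
    rw [hP, Finset.mem_filter, Set.Finite.mem_toFinset] at hg
    exact ⟨one_le_norm hg.2, hg.1.1, hg.1.2⟩
  have hsum : (P.card : ℝ≥0∞) * ENNReal.ofReal (T ^ (-(2 - α + δ))) ≤ f ω := by
    have h1 : ∑ g ∈ P.attach, (R (g : Gi)).indicator (fun _ => w g) ω ≤ f ω := by
      have hinj : Function.Injective (fun g : P => (⟨g.1, (hPm g.1 g.2).1⟩ : S)) := by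
        intro a b hab
        exact Subtype.ext (congrArg (fun s : S => (s : Gi)) hab)
      have h2 := ENNReal.sum_le_tsum (f := fun s : S => (R (s : Gi)).indicator (fun _ => w s) ω)
        (P.attach.map ⟨_, hinj⟩)
      rw [Finset.sum_map] at h2
      exact h2
    refine le_trans ?_ h1
    rw [← Finset.card_attach, ← nsmul_eq_mul, ← Finset.sum_const]
    refine Finset.sum_le_sum (fun g _ => ?_)
    obtain ⟨hg1, hg2, hg3⟩ := hPm g.1 g.2
    rw [Set.indicator_of_mem hg2, hw]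
    apply ENNReal.ofReal_le_ofReal
    exact Real.rpow_le_rpow_of_nonpos (lt_of_lt_of_le one_pos hg1) hg3 (by linarith)
  have hreal : (P.card : ℝ) * T ^ (-(2 - α + δ)) ≤ (f ω).toReal := by
    have h1 := ENNReal.toReal_mono hω.ne hsum
    rw [ENNReal.toReal_mul, ENNReal.toReal_natCast, ENNReal.toReal_ofReal (Real.rpow_nonneg hT0.le _)] at h1
    exact h1
  rw [Real.rpow_neg hT0.le, ← div_eq_mul_inv, div_le_iff₀ hTp] at hreal
  have hcard' : ({g : Gi | ω ∈ R g ∧ ‖φ g‖ ≤ T}.ncard : ℝ) ≤ P.card + 1 := by exact_mod_cast hcard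
  linarith

/-- lower bound for the counting function -/
theorem size_lower (h : IsRandomSet α μ R) (hα : 0 < α) (hα2 : α < 2) (δ : ℝ) (hδ : 0 < δ) :
    ∀ᵐ ω ∂μ, ∃ T₀ : ℝ, ∀ T : ℝ, T₀ ≤ T →
      T ^ (2 - α - δ) ≤ ({g : Gi | ω ∈ R g ∧ ‖φ g‖ ≤ T}.ncard : ℝ) := by
  classical
  have := h.prob
  set θ : ℝ := 2 - α with hθ
  have hθ0 : 0 < θ := by rw [hθ]; linarith
  obtain ⟨K, hK⟩ := exp_small (1 / 72) θ 2 (by norm_num) hθ0
  set E : ℕ → Set Ω := fun n => {ω | (((bx (n ^ 2)).filter (fun g => ω ∈ R g)).card : ℝ) ≤ 1 / 72 * (n : ℝ) ^ θ} with hE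
  have hsq : ∀ n : ℕ, 10 ≤ n → (n : ℝ) ^ 2 / 18 ≤ (bx (n ^ 2)).card := by
    intro n hn
    have hn' : (10 : ℝ) ≤ n := by exact_mod_cast hn
    have hc0 : ((n : ℤ) : Gi) ≠ 0 := by
      intro h0
      have : (n : ℤ) = 0 := by exact_mod_cast h0
      omega
    obtain ⟨L, hL1, hL2, hL3⟩ := square ((n : ℤ) : Gi) hc0
    have hnm : nm ((n : ℤ) : Gi) = n ^ 2 := by
      have h1 := nm_val ((n : ℤ) : Gi)
      simp only [Zsqrtd.re_intCast, Zsqrtd.im_intCast] at h1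
      have h2 : (nm ((n : ℤ) : Gi) : ℤ) = ((n ^ 2 : ℕ) : ℤ) := by
        rw [h1]
        push_cast
        ring
      exact_mod_cast h2
    rw [hnm] at hL2 hL3
    have h3 : L ⊆ insert 0 (bx (n ^ 2)) := by
      intro x hx
      rw [Finset.mem_insert, mem_bx]
      by_cases h0 : x = 0
      · exact Or.inl h0
      · exact Or.inr ⟨h0, hL3 x hx⟩
    have h4 : (L.card : ℝ) ≤ (bx (n ^ 2)).card + 1 := by
      exact_mod_cast (Finset.card_le_card h3).trans (Finset.card_insert_le _ _)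
    push_cast at hL2
    nlinarith
  have hprob : ∀ n ∈ {n : ℕ | 10 ≤ n}, μ (E n) ≤ ENNReal.ofReal (K * (n : ℝ) ^ (-(2 : ℝ))) := by
    intro n hn
    have hn' : (10 : ℝ) ≤ n := by exact_mod_cast hn
    have hn0 : (0 : ℝ) < n := by linarith
    have hlt := lower_tail h.meas h.indep (bx (n ^ 2)) (1 / 72 * (n : ℝ) ^ θ)
    refine hlt.trans (ENNReal.ofReal_le_ofReal (le_trans (Real.exp_le_exp.2 ?_) (hK n (by linarith))))
    have hsum : (n : ℝ) ^ 2 / 18 * (n : ℝ) ^ (-α) ≤ ∑ g ∈ bx (n ^ 2), μ.real (R g) := by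
      calc (n : ℝ) ^ 2 / 18 * (n : ℝ) ^ (-α) ≤ ((bx (n ^ 2)).card : ℝ) * (n : ℝ) ^ (-α) :=
            mul_le_mul_of_nonneg_right (hsq n hn) (by positivity)
        _ = ∑ _g ∈ bx (n ^ 2), (n : ℝ) ^ (-α) := by rw [Finset.sum_const, nsmul_eq_mul]
        _ ≤ ∑ g ∈ bx (n ^ 2), μ.real (R g) := by
            refine Finset.sum_le_sum (fun g hg => ?_)
            rw [mem_bx] at hg
            rw [h.real hg.1]
            refine Real.rpow_le_rpow_of_nonpos (lt_of_lt_of_le one_pos (one_le_norm hg.1)) ?_ (by linarith)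
            have : ‖φ g‖ ^ 2 ≤ (n : ℝ) ^ 2 := by
              rw [← nm_real]
              exact_mod_cast hg.2
            exact le_of_sq_le_sq this hn0.le
    have h5 : (n : ℝ) ^ 2 / 18 * (n : ℝ) ^ (-α) = (n : ℝ) ^ θ / 18 := by
      rw [hθ, show (2 : ℝ) - α = 2 + -α by ring, Real.rpow_add hn0, Real.rpow_two]
      ring
    rw [h5] at hsum
    linarith
  have hcount : ∀ X : ℝ, 1 ≤ X → {n : ℕ | n ∈ {n : ℕ | 10 ≤ n} ∧ (n : ℝ) ≤ X}.Finite ∧
      ({n : ℕ | n ∈ {n : ℕ | 10 ≤ n} ∧ (n : ℝ) ≤ X}.ncard : ℝ) ≤ 1 * X ^ (1 : ℝ) := by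
    intro X hX
    have hsub : {n : ℕ | n ∈ {n : ℕ | 10 ≤ n} ∧ (n : ℝ) ≤ X} ⊆ (Finset.Icc 1 ⌊X⌋₊ : Set ℕ) := by
      rintro n ⟨h1, h2⟩
      have h1' : 10 ≤ n := h1
      rw [Finset.mem_coe, Finset.mem_Icc]
      exact ⟨by omega, Nat.le_floor h2⟩
    refine ⟨(Finset.finite_toSet _).subset hsub, ?_⟩
    have h3 := Set.ncard_le_ncard hsub (Finset.finite_toSet _)
    rw [Set.ncard_coe_finset, Nat.card_Icc] at h3
    rw [Real.rpow_one, one_mul]
    have h4 : ((⌊X⌋₊ : ℕ) : ℝ) ≤ X := Nat.floor_le (by linarith)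
    have h5 : ({n : ℕ | n ∈ {n : ℕ | 10 ≤ n} ∧ (n : ℝ) ≤ X}.ncard : ℝ) ≤ ((⌊X⌋₊ : ℕ) : ℝ) := by
      exact_mod_cast (by simpa using h3)
    linarith
  have hae := ae_finite (μ := μ) {n : ℕ | 10 ≤ n} (fun n => (n : ℝ)) 1 K 1 2 (by norm_num) (by norm_num)
    (fun n hn => by
      have hn' : 10 ≤ n := hn
      have : (10 : ℝ) ≤ n := by exact_mod_cast hn'
      show (1 : ℝ) ≤ n
      linarith) hcount E hprob
  obtain ⟨X₂, hX₂, hX₂'⟩ := exists_large (2 - α - δ) θ (72 * 2 ^ θ) (by rw [hθ]; linarith)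
  filter_upwards [hae] with ω hω
  obtain ⟨M, hM⟩ : ∃ M : ℕ, ∀ n ∈ {t | t ∈ {n : ℕ | 10 ≤ n} ∧ ω ∈ E t}, n ≤ M := by
    obtain ⟨M, hM⟩ := hω.bddAbove
    exact ⟨M, fun n hn => hM hn⟩
  refine ⟨max X₂ (max ((M : ℝ) + 1) 10), fun T hT => ?_⟩
  have hT1 : X₂ ≤ T := (le_max_left _ _).trans hT
  have hT2 : (M : ℝ) + 1 ≤ T := ((le_max_left _ _).trans (le_max_right _ _)).trans hT
  have hT3 : 10 ≤ T := ((le_max_right _ _).trans (le_max_right _ _)).trans hT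
  set n := ⌊T⌋₊ with hn
  have hn1 : M + 1 ≤ n := Nat.le_floor (by push_cast; exact hT2)
  have hn2 : 10 ≤ n := Nat.le_floor (by push_cast; exact hT3)
  have hnT : (n : ℝ) ≤ T := Nat.floor_le (by linarith)
  have hnT' : T / 2 ≤ n := by
    have := Nat.lt_floor_add_one T
    rw [← hn] at this
    linarith
  have hnot : ω ∉ E n := by
    intro hE'
    have := hM n ⟨hn2, hE'⟩
    omega
  simp only [hE, Set.mem_ofPred_eq, not_le] at hnot
  have h5 := hX₂' _ hT1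
  have h6 : (T / 2) ^ θ ≤ (n : ℝ) ^ θ := Real.rpow_le_rpow (by linarith) hnT' hθ0.le
  rw [Real.div_rpow (by linarith) (by norm_num), div_le_iff₀ (by positivity)] at h6
  have h7 : (((bx (n ^ 2)).filter (fun g => ω ∈ R g)).card : ℝ) ≤ ({g : Gi | ω ∈ R g ∧ ‖φ g‖ ≤ T}.ncard : ℝ) := by
    have hsub : (((bx (n ^ 2)).filter (fun g => ω ∈ R g) : Finset Gi) : Set Gi) ⊆
        {g : Gi | ω ∈ R g ∧ ‖φ g‖ ≤ T} := by
      intro g hg
      rw [Finset.mem_coe, Finset.mem_filter, mem_bx] at hg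
      refine ⟨hg.2, le_trans ?_ hnT⟩
      have : ‖φ g‖ ^ 2 ≤ (n : ℝ) ^ 2 := by
        rw [← nm_real]
        exact_mod_cast hg.1.2
      exact le_of_sq_le_sq this (Nat.cast_nonneg _)
    have := Set.ncard_le_ncard hsub (finite_le _ T)
    rw [Set.ncard_coe_finset] at this
    exact_mod_cast this
  have h2θ : (0 : ℝ) < 2 ^ θ := by positivity
  have h8 : 72 * 2 ^ θ * T ^ (2 - α - δ) ≤ (n : ℝ) ^ θ * 2 ^ θ := h5.trans h6
  have h9 : 72 * T ^ (2 - α - δ) ≤ (n : ℝ) ^ θ := by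
    refine le_of_mul_le_mul_right ?_ h2θ
    linarith
  linarith

end Pool.Agent.T6.H23.TB
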